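import Pool.Agent.NH25.UF.All
import Pool.Agent.NH25.CV.All
import Pool.Agent.Y916.Sl.Many
import Pool.Agent.Y123.GN.E7

/-!
# Periods of algebraic fibres: relations over all number fields of bounded degree at once

Let `X_l → U_l`, `1 ≤ l ≤ p`, be families of smooth projective varieties over curves over a number field, `z_l` a coordinate
at a point of the smooth compactification of `U_l` at which the local monodromy is unipotent (for example trivial), and
`S = U_1 × … × U_p`. Near this point the multivalued period matrix of `X_l` is `C_l exp(t_l N_l) H_l(z_l)`, where `t_l` is a value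
of `log z_l`, `C_l` a constant matrix and `exp(t N_l) H_l` a fundamental matrix of the Picard-Fuchs system over a number
field, normalised by `H_l(0) = 1`; the entries of `H_l` and `H_l⁻¹` are G-functions (André). Hence all branches of all the
periods, together with any constants, are functions as in `LogRepresented`: polynomials in the logarithm `t_l` whose
coefficients are linear combinations with complex coefficients of `1` and the entries of `H_l(z_l)`, for some `l`. The
definition makes no reference to geometry.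

For the multivalued function `P` let `B_P` be the Zariski closure over `ℚ̄` of its graph, and `B_{P, s}` (`closureFibre`) the
fibre over `s`. The question is whether a polynomial over `ℚ̄` which vanishes at `P(s)` vanishes on `B_{P, s}`. We consider
polynomials of degree at most `δ` whose coefficients are in `K₀(s)` for some number field `K₀` of degree at most `D`, which may
depend on `s` and on the polynomial. (Every polynomial over a field of degree at most `D` over `ℚ(s)` is of this kind for a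
larger `D`.)

In this setting the irreducible components of `B_{P, s}` matter: for `P(z) = √(1 + z)` the polynomial `X - √(1 + s)` vanishes at
`P(s)` but not on `B_{P, s}`. The general result is that `F` vanishes on an irreducible component of `B_{P, s}` (for the Zariski
topology over `ℚ̄`); thus, if `B_{P, s}` is irreducible, then `F` vanishes on `B_{P, s}`. If moreover the algebraic functions in
the field which is generated by the functions `P` over `ℚ̄(z)` are rational (`NoAlgebraicFunctions`), then `F` vanishes on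
`B_{P, s}`, without any assumption on the fibre over `s`. For the periods of a family this is the case if the monodromy group
is Zariski connected: an algebraic function in the field has a finite orbit under the monodromy group, hence it is
invariant under the identity component of its Zariski closure.

**Theorem.** Let `P` be as in `LogRepresented`. Let `m_l ≥ 1` and `0 < η ≤ 1`. For all `T ≥ 1` and all integers `a_l` in
`[1, T ^ (1 - η)]` we consider the points `s = (a_1 / β_1, …, a_p / β_p)`, where `β_l` is an algebraic integer of degree at most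
`m_l` all of whose conjugates are bounded by `T`. The number of the tuples `β` is at least `c₀ T ^ M`, with
`M = ∑ m_l (m_l + 1) / 2`. For all `δ` and `D` there are `c > 0` and `C` such that for all but `C T ^ (M - c)` of the tuples: for
all number fields `K₀` of degree at most `D`, every polynomial `F` over `K₀(s)` of degree at most `δ` which vanishes at a branch
`P(s)` vanishes on an irreducible component of `B_{P, s}`; and if `P` satisfies `NoAlgebraicFunctions`, then `F` vanishes on
`B_{P, s}` and is the value at `s` of a polynomial over `ℚ̄[z_1, …, z_p]` of degree at most `δ` which vanishes on `B_P`. Moreover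
there are functions `d(T) → ∞` and `ε(T) → 0` such that this holds with `D = δ = d(T)` for all but `ε(T) T ^ M` of the tuples.

**All families of curves.** Let `F_l(z, x, y)` be polynomials over `ℚ̄`, monic in `y`, and `Q_l(z, x) ≠ 0` polynomials over `ℚ̄` such that
`F_l(z, x, Y)` has no multiple root when `Q_l(z, x) ≠ 0`: families of curves `F_l(z, x, y) = 0, Q_l(z, x) ≠ 0` (`CurveFamily`); every
family of smooth curves over a curve is of this form over an open subset of the base. There is a finite set `E` such that near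
every centre `c` with algebraic coordinates outside `E` the same conclusion holds for the periods
`∮ P(z, x, y) dx / Q(z, x) ^ k` over closed paths which are transported to the neighbouring fibres (`TransportedLoop`; every closed
path on the curve `U_c` which avoids the zeros of `Q(c, x)` and for which `x(t)` is continuously differentiable has a unique
transport for small `|z - c|`), together with arbitrary constants. The functions are written in the coordinate `z - c`. Here
nothing about G-functions is assumed: the theorem of André for `H^1` of families of curves is proved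
(`Pool/Agent/NH25/CV`, with many coauthors).

What was known: the points with the degree `δ` property over `κ(s)` are dense in the analytic topology. In the theorems of
MP_290158_ag (`AllFamiliesOfCurves`) and `PointsNearDegenerations` the exceptional set depends on the field `K₀`;
`BoundedDegreeAlgebraicPoints` treats all fields of bounded degree for families over `ℚ`, but only the part of the closure
which is controlled by unipotent one-parameter groups in the Galois group, or big monodromy groups.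

Proof. For a fixed number field `L₀` the statement of degree `D δ` over `L₀(s)` holds outside a small set
(`Pool/Agent/NH25/DL`: linear independence over `ℚ` of products of values of G-functions and logarithms at translates of an
algebraic number). Let `F` be a polynomial over `K₀(s)` with `F(P(s)) = 0`. The product `N` of its at most `D` conjugates over
`L₀(s)` is a relation over `L₀(s)`, hence the value at `s` of a functional relation; so it vanishes on every component of
`B_{P, s}`, and the conjugates over `L₀(s)` permute the components. If the field of `B_P` is regular over `ℚ̄(z)`, the functional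
relations generate a prime ideal over the algebraic closure of `ℚ̄(z)`. By the theorem of zeros over this field, with
unknowns the coefficients of the factors, there is a polynomial `Δ ≠ 0` such that for `Δ(s) ≠ 0` a product of at most `D`
polynomials of degree at most `δ` is the value at `s` of a functional relation of degree at most `D δ` only if one of the
factors is the value of a functional relation of degree at most `δ` (`Pool/Agent/NH25/UF`). Thus a conjugate of `F` over `L₀(s)`
is such a value; if `L₀` is large enough this property is invariant under conjugation.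
-/

set_option autoImplicit false

open PowerSeries Filter

namespace Pool.Agent.Results.MP_5591bc_ag.AllFamiliesOfCurves

section systems

variable {L : Type} [Field L]

/-- The arithmetic conditions in the definition of a G-function over the number field `L`: geometric growth of all
conjugates of the coefficients and of their common denominators. -/
def GFunction (g : PowerSeries L) : Prop := ∃ A : ℝ, (∀ (φ : L →+* ℂ) (m : ℕ), ‖φ (coeff m g)‖ ≤ A ^ (m + 1)) ∧
  ∀ m, ∃ d : ℕ, 0 < d ∧ (d : ℝ) ≤ A ^ (m + 1) ∧ ∀ j ≤ m, IsIntegral ℤ ((d : L) * coeff j g)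

/-- The matrix `Y = z ^ N H(z)` with `N` nilpotent and `H(0) = 1` is a fundamental matrix (rows: solutions) of a system
`f z Y' = Y A` over `L(z)` with `f(0) ≠ 0`, and the entries of `H` and of the inverse matrix are G-functions. -/
structure UnipotentMatrix {n : ℕ} (N : Matrix (Fin n) (Fin n) ℤ) (H : Matrix (Fin n) (Fin n) (PowerSeries L)) : Prop where
  /-- `N` is nilpotent -/
  nilpotent : N ^ n = 0
  /-- the normalisation -/
  one : ∀ i j, coeff 0 (H i j) = if i = j then 1 else 0
  /-- the system: `f (z H' + N H) = H A` with `f(0) ≠ 0` -/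
  ode : ∃ (f : Polynomial L) (A : Matrix (Fin n) (Fin n) (Polynomial L)), f.coeff 0 ≠ 0 ∧
    ∀ i j, (f : PowerSeries L) * (X * PowerSeries.derivative L (H i j) + ∑ k, C (N i k : L) * H k j) =
      ∑ k, H i k * (A k j : PowerSeries L)
  /-- the entries are G-functions -/
  gfun : ∀ i j, GFunction (H i j)
  /-- the entries of the inverse matrix are G-functions -/
  inv : ∃ W : Matrix (Fin n) (Fin n) (PowerSeries L), H * W = 1 ∧ ∀ i j, GFunction (W i j)

/-- the value of a power series -/
noncomputable def value [Algebra L ℂ] (g : PowerSeries L) (z : ℂ) : ℂ := ∑' m : ℕ, algebraMap L ℂ (coeff m g) * z ^ m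

end systems

/-- `P z t` are the values of multivalued functions at the point `z` of the punctured polydisc of radius `ρ`, for the values
`t` of the logarithms of the coordinates of `z`. There are a number field `L` in `ℂ` and matrices `H_1, …, H_p` over `L` as in
`UnipotentMatrix` such that every function `P i` is for some `l` a polynomial in the logarithm `t_l` whose coefficients are
linear combinations, with complex coefficients, of `1` and the entries of `H_l(z_l)`. -/
def LogRepresented {p : ℕ} {ι : Type} (P : (Fin p → ℂ) → (Fin p → ℂ) → ι → ℂ) (ρ : ℝ) : Prop :=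
  ∃ (L : Type) (_ : Field L) (_ : NumberField L) (_ : Algebra L ℂ) (n : Fin p → ℕ)
    (N : ∀ l, Matrix (Fin (n l)) (Fin (n l)) ℤ) (H : ∀ l, Matrix (Fin (n l)) (Fin (n l)) (PowerSeries L)) (e : ℕ),
    (∀ l, UnipotentMatrix (N l) (H l)) ∧
    ∀ i, ∃ (l : Fin p) (c₀ : Fin (e + 1) → ℂ) (c : Fin (e + 1) → Matrix (Fin (n l)) (Fin (n l)) ℂ),
      ∀ z t : Fin p → ℂ, (∀ l, ‖z l‖ < ρ) → (∀ l, Complex.exp (t l) = z l) →
        P z t i = ∑ j, (c₀ j + ∑ a, ∑ b, c j a b * value (H l a b) (z l)) * t l ^ (j : ℕ)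

section statement

/-- The field of all algebraic numbers. -/
noncomputable abbrev QBar : IntermediateField ℚ ℂ := algebraicClosure ℚ ℂ

variable {p : ℕ} {ι : Type}

/-- a polynomial over `ℚ̄[z_1, …, z_p]` at a point `z` -/
noncomputable def special (G : MvPolynomial ι (MvPolynomial (Fin p) QBar)) (z : Fin p → ℂ) : MvPolynomial ι ℂ :=
  G.map (MvPolynomial.aeval z : MvPolynomial (Fin p) QBar →ₐ[QBar] ℂ).toRingHom

/-- `G(z, P(z)) = 0` for all `z` in the punctured polydisc of radius `r` and all branches of `P` at `z` -/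
def Holds (P : (Fin p → ℂ) → (Fin p → ℂ) → ι → ℂ) (r : ℝ) (G : MvPolynomial ι (MvPolynomial (Fin p) QBar)) : Prop :=
  ∀ z t : Fin p → ℂ, (∀ l, ‖z l‖ < r) → (∀ l, Complex.exp (t l) = z l) → MvPolynomial.aeval (P z t) (special G z) = 0

/-- The fibre over `s` of the Zariski closure over the algebraic numbers of the graph of the multivalued function `P` over
the punctured polydisc of radius `r`. -/
def closureFibre (P : (Fin p → ℂ) → (Fin p → ℂ) → ι → ℂ) (r : ℝ) (s : Fin p → ℂ) : Set (ι → ℂ) :=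
  {y | ∀ G : MvPolynomial ι (MvPolynomial (Fin p) QBar), Holds P r G → MvPolynomial.aeval y (special G s) = 0}

/-- The residue field `κ(s) = K₀(s_1, …, s_p)`. -/
noncomputable def residueField (K₀ : IntermediateField ℚ ℂ) (s : Fin p → ℂ) : IntermediateField ℚ ℂ :=
  K₀ ⊔ IntermediateField.adjoin ℚ (Set.range s)

end statement

/-- `G(z, P(z)) = 0` for all `z` near `0` and all branches of `P` at `z` -/
def Relation {p : ℕ} {ι : Type} (P : (Fin p → ℂ) → (Fin p → ℂ) → ι → ℂ) (G : MvPolynomial ι (MvPolynomial (Fin p) QBar)) :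
    Prop := ∃ r : ℝ, 0 < r ∧ Holds P r G

/-- the polynomial `∑ q_j G₁ ^ j G₂ ^ (n - j)`, with `n` the degree of `q`: the numerator of `q(G₁ / G₂)` -/
noncomputable def numerator {p : ℕ} {ι : Type} (q : Polynomial (MvPolynomial (Fin p) QBar))
    (G₁ G₂ : MvPolynomial ι (MvPolynomial (Fin p) QBar)) : MvPolynomial ι (MvPolynomial (Fin p) QBar) :=
  ∑ j ∈ Finset.range (q.natDegree + 1), MvPolynomial.C (q.coeff j) * G₁ ^ j * G₂ ^ (q.natDegree - j)

/-- the polynomial `b G₁ - a G₂` -/
noncomputable def difference {p : ℕ} {ι : Type} (a b : MvPolynomial (Fin p) QBar)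
    (G₁ G₂ : MvPolynomial ι (MvPolynomial (Fin p) QBar)) : MvPolynomial ι (MvPolynomial (Fin p) QBar) :=
  MvPolynomial.C b * G₁ - MvPolynomial.C a * G₂

/-- Every element `f = G₁(z, P(z)) / G₂(z, P(z))` of the field which is generated by the functions `P` over the field of
rational functions `ℚ̄(z)`, and which is algebraic over `ℚ̄(z)`, that is, `q(f) = 0` for a nonzero polynomial `q` over
`ℚ̄[z]`, is an element `a(z) / b(z)` of `ℚ̄(z)`. -/
def NoAlgebraicFunctions {p : ℕ} {ι : Type} (P : (Fin p → ℂ) → (Fin p → ℂ) → ι → ℂ) : Prop :=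
  ∀ G₁ G₂ : MvPolynomial ι (MvPolynomial (Fin p) QBar), ¬ Relation P G₂ →
    ∀ q : Polynomial (MvPolynomial (Fin p) QBar), q ≠ 0 → Relation P (numerator q G₁ G₂) →
    ∃ a b : MvPolynomial (Fin p) QBar, b ≠ 0 ∧ Relation P (difference a b G₁ G₂)

/-- The ideal of the fibre over `s`, a point with algebraic coordinates: it is generated by the values at `s` of the
polynomials over `ℚ̄[z]` which vanish on the graph of the multivalued function `P` over the punctured polydisc of radius
`r`. Its set of zeros is `closureFibre P r s`. -/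
noncomputable def fibreIdeal {p : ℕ} {ι : Type} (P : (Fin p → ℂ) → (Fin p → ℂ) → ι → ℂ) (r : ℝ) (s : Fin p → ℂ) :
    Ideal (MvPolynomial ι QBar) :=
  Ideal.span {g | ∃ G : MvPolynomial ι (MvPolynomial (Fin p) QBar), Holds P r G ∧
    special G s = g.map (algebraMap QBar ℂ)}

/-- `Y` is an irreducible component, for the Zariski topology over `ℚ̄`, of the fibre over `s` of the closure of the
graph. -/
def IsComponent {p : ℕ} {ι : Type} (P : (Fin p → ℂ) → (Fin p → ℂ) → ι → ℂ) (r : ℝ) (s : Fin p → ℂ) (Y : Set (ι → ℂ)) :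
    Prop := ∃ 𝔮 ∈ (fibreIdeal P r s).minimalPrimes, Y = {y | ∀ g ∈ 𝔮, MvPolynomial.aeval y g = 0}

/-- `F` vanishes on `Y` -/
def VanishesOn {ι : Type} {K : IntermediateField ℚ ℂ} (F : MvPolynomial ι K) (Y : Set (ι → ℂ)) : Prop :=
  ∀ y ∈ Y, MvPolynomial.aeval y F = 0

/-- `F` is the value at `s` of a relation over `ℚ̄[z]`, of total degree at most `δ`, which holds on the graph of `P`. -/
def IsSpecialisation {p : ℕ} {ι : Type} (P : (Fin p → ℂ) → (Fin p → ℂ) → ι → ℂ) (r : ℝ) (δ : ℕ) (s : Fin p → ℂ)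
    {K : IntermediateField ℚ ℂ} (F : MvPolynomial ι K) : Prop :=
  ∃ G : MvPolynomial ι (MvPolynomial (Fin p) QBar), G.totalDegree ≤ δ ∧ Holds P r G ∧
    special G s = F.map (algebraMap K ℂ)

/-- The statement of degree `δ` over `K₀(s)` at `s`, for all branches `P(s)`: every polynomial `F` of total degree at most `δ`
with coefficients in `K₀(s)` which vanishes at `P(s)` vanishes on an irreducible component of the fibre over `s` of the
closure of the graph of `P`; and if `P` satisfies `NoAlgebraicFunctions`, then `F` vanishes on the whole fibre, and is the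
value at `s` of a relation over `ℚ̄[z]`, of total degree at most `δ`, which holds on the graph of `P`. -/
def StatementOver {p : ℕ} {ι : Type} (P : (Fin p → ℂ) → (Fin p → ℂ) → ι → ℂ) (r : ℝ) (K₀ : IntermediateField ℚ ℂ) (δ : ℕ)
    (s : Fin p → ℂ) : Prop :=
  ∀ t : Fin p → ℂ, (∀ l, Complex.exp (t l) = s l) →
  ∀ F : MvPolynomial ι (residueField K₀ s), F.totalDegree ≤ δ → MvPolynomial.aeval (P s t) F = 0 →
    (∃ Y : Set (ι → ℂ), IsComponent P r s Y ∧ VanishesOn F Y) ∧
    (NoAlgebraicFunctions P → VanishesOn F (closureFibre P r s) ∧ IsSpecialisation P r δ s F)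

/-- the statement of degree `δ` over `K₀(s)` for all number fields `K₀` of degree at most `D` -/
def StatementForAll {p : ℕ} {ι : Type} (P : (Fin p → ℂ) → (Fin p → ℂ) → ι → ℂ) (r : ℝ) (D δ : ℕ) (s : Fin p → ℂ) : Prop :=
  ∀ K₀ : IntermediateField ℚ ℂ, FiniteDimensional ℚ K₀ → Module.finrank ℚ K₀ ≤ D → StatementOver P r K₀ δ s

/-- algebraic integers of degree at most `m` all of whose conjugates have absolute value at most `T` -/
def House (m T : ℕ) (ξ : ℂ) : Prop :=
  IsIntegral ℤ ξ ∧ (minpoly ℚ ξ).natDegree ≤ m ∧ ∀ z : ℂ, Polynomial.aeval z (minpoly ℚ ξ) = 0 → ‖z‖ ≤ T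

/-- the tuples `β` -/
def Tuples {p : ℕ} (m : Fin p → ℕ) (T : ℕ) : Set (Fin p → ℂ) := {β | ∀ l, House (m l) T (β l)}

/-- the exponent `∑ m_l (m_l + 1) / 2` -/
def size {p : ℕ} (m : Fin p → ℕ) : ℕ := ∑ l, m l * (m l + 1) / 2

/-- The tuples `β` for which the point `s = (a_1 / β_1, …, a_p / β_p)` is not in the polydisc of radius `r` or the
statement of degree `δ` at `s` fails over `K₀(s)` for some number field `K₀` of degree at most `D`. -/
def Exceptional {p : ℕ} {ι : Type} (P : (Fin p → ℂ) → (Fin p → ℂ) → ι → ℂ) (r : ℝ) (D δ : ℕ)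
    (m : Fin p → ℕ) (T : ℕ) (a : Fin p → ℕ) : Set (Fin p → ℂ) :=
  {β | β ∈ Tuples m T ∧ ¬ ((∀ l, ‖(a l : ℂ) / β l‖ < r) ∧ StatementForAll P r D δ fun l => (a l : ℂ) / β l)}

/-- The conclusion of the theorem, for a family of multivalued functions `P` on the punctured polydisc of radius `ρ`. -/
def AlmostAll {p : ℕ} {ι : Type} (P : (Fin p → ℂ) → (Fin p → ℂ) → ι → ℂ) (ρ : ℝ) : Prop :=
  ∃ r : ℝ, 0 < r ∧ r ≤ ρ ∧ ∀ (m : Fin p → ℕ) (η : ℝ), (∀ l, 1 ≤ m l) → 0 < η → η ≤ 1 →
    (∀ δ D : ℕ, ∃ c C : ℝ, 0 < c ∧ ∀ T : ℕ, 1 ≤ T →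
      ∀ a : Fin p → ℕ, (∀ l, 1 ≤ a l ∧ (a l : ℝ) ≤ (T : ℝ) ^ (1 - η)) →
      ((Exceptional P r D δ m T a).ncard : ℝ) ≤ C * (T : ℝ) ^ ((size m : ℝ) - c)) ∧
    (∃ (d : ℕ → ℕ) (ε : ℕ → ℝ), Tendsto d atTop atTop ∧ Tendsto ε atTop (nhds 0) ∧
      ∀ T : ℕ, 1 ≤ T → ∀ a : Fin p → ℕ, (∀ l, 1 ≤ a l ∧ (a l : ℝ) ≤ (T : ℝ) ^ (1 - η)) →
      ((Exceptional P r (d T) (d T) m T a).ncard : ℝ) ≤ ε T * (T : ℝ) ^ size m)

section curves

/-- The polynomial `F(z, x, Y)` in `Y`, for `F` in `ℚ̄[z][x][Y]`. -/
noncomputable def fibre (F : Polynomial (Polynomial (Polynomial QBar))) (z x : ℂ) : Polynomial ℂ :=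
  F.map ((Polynomial.evalRingHom x).comp (Polynomial.mapRingHom (Polynomial.eval₂RingHom (algebraMap QBar ℂ) z)))

/-- The value `Q(z, x)`, for `Q` in `ℚ̄[z][x]`. -/
noncomputable def point (Q : Polynomial (Polynomial QBar)) (z x : ℂ) : ℂ :=
  (Q.map (Polynomial.eval₂RingHom (algebraMap QBar ℂ) z)).eval x

/-- A family of curves `U_z : F(z, x, y) = 0, Q(z, x) ≠ 0` over the algebraic numbers, unramified over the `x`-line without the
zeros of `Q(z, x)`, with `r` forms `P_i(z, x, y) dx / Q(z, x) ^ k_i`. -/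
structure CurveFamily where
  F : Polynomial (Polynomial (Polynomial QBar))
  Q : Polynomial (Polynomial QBar)
  /-- `F` is monic in `y` -/
  monic : F.Monic
  degree_pos : 0 < F.natDegree
  ne_zero : Q ≠ 0
  /-- if `Q(z, x) ≠ 0` then `F(z, x, Y)` has no multiple root -/
  unramified : ∀ z x : ℂ, point Q z x ≠ 0 → (fibre F z x).Separable
  /-- the number of forms -/
  r : ℕ
  P : Fin r → Polynomial (Polynomial (Polynomial QBar))
  k : Fin r → ℕ

/-- A closed path on the curve `U_c` and its transport `(x(t), y(z, t))` to the curves `U_z`, `|z - c| < ρ`. -/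
structure TransportedLoop (X : CurveFamily) (c : ℂ) (ρ : ℝ) where
  x : ℝ → ℂ
  y : ℂ → ℝ → ℂ
  smooth : ContDiff ℝ 1 x
  continuous : ContinuousOn (fun v : ℂ × ℝ => y v.1 v.2) (Metric.ball c ρ ×ˢ Set.Icc (0 : ℝ) 1)
  closed_x : x 0 = x 1
  closed_y : ∀ z ∈ Metric.ball c ρ, y z 0 = y z 1
  curve : ∀ z ∈ Metric.ball c ρ, ∀ t ∈ Set.Icc (0 : ℝ) 1, (fibre X.F z (x t)).eval (y z t) = 0
  away : ∀ z ∈ Metric.ball c ρ, ∀ t ∈ Set.Icc (0 : ℝ) 1, point X.Q z (x t) ≠ 0

/-- The period of the `i`-th form over the transported loop on `U_z`. -/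
noncomputable def period {X : CurveFamily} {c : ℂ} {ρ : ℝ} (γ : TransportedLoop X c ρ) (i : Fin X.r) (z : ℂ) : ℂ :=
  ∫ t in (0 : ℝ)..1, (fibre (X.P i) z (γ.x t)).eval (γ.y z t) / point X.Q z (γ.x t) ^ X.k i * deriv γ.x t

/-- The periods of `p` families of curves over `σ l` transported loops, as (single-valued) functions of `z - c`, and the constants
`w`. -/
noncomputable def periods {p q : ℕ} (X : Fin p → CurveFamily) (c : Fin p → ℂ) {ρ : ℝ} {σ : Fin p → ℕ}
    (γ : ∀ l, Fin (σ l) → TransportedLoop (X l) (c l) ρ) (w : Fin q → ℂ) (z _t : Fin p → ℂ) :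
    (Σ l, Fin (σ l) × Fin (X l).r) ⊕ Fin q → ℂ :=
  Sum.elim (fun v => period (γ v.1 v.2.1) v.2.2 (c v.1 + z v.1)) w

end curves

section proof

open Pool.Agent.NH25.DL Pool.Agent.Y921.DB Pool.Agent.Y916

variable {p : ℕ} {ι : Type}

/-- the data of a representation -/
theorem rep_of {P : (Fin p → ℂ) → (Fin p → ℂ) → ι → ℂ} {ρ : ℝ} (h : LogRepresented P ρ) :
    ∃ (P' : (Fin p → ℂ) → (Fin p → ℂ) → ι → ℂ) (L : Type) (_ : Field L) (_ : NumberField L) (_ : Algebra L ℂ)
      (n : Fin p → ℕ) (N : ∀ l, Matrix (Fin (n l)) (Fin (n l)) ℤ)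
      (H : ∀ l, Matrix (Fin (n l)) (Fin (n l)) (PowerSeries L)), (∀ l, LFam (N l) (H l)) ∧ Nonempty (RepL P' ρ H) ∧
      ∀ z t : Fin p → ℂ, (∀ l, ‖z l‖ < ρ) → (∀ l, Complex.exp (t l) = z l) → P z t = P' z (-t) := by
  obtain ⟨L, i1, i2, i3, n, N, H, e, hH, hP⟩ := h
  choose co c₀ c hc using hP
  refine ⟨fun z t i => ∑ j : Fin (e + 1), ((-1) ^ (j : ℕ) * c₀ i j + ∑ a, ∑ b, ((-1) ^ (j : ℕ) * c i j a b) *
    value (H (co i) a b) (z (co i))) * t (co i) ^ (j : ℕ), L, i1, i2, i3, n, N, H, fun l => ?_, ⟨⟨e, co,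
      fun i j => (-1) ^ (j : ℕ) * c₀ i j, fun i j => Matrix.of fun a b => (-1) ^ (j : ℕ) * c i j a b,
      fun z hz t i => rfl⟩⟩, fun z t hz ht => ?_⟩
  · obtain ⟨f, A, hf, hode⟩ := (hH l).ode
    obtain ⟨W, hW, hWG⟩ := (hH l).inv
    exact ⟨(hH l).nilpotent, (hH l).one, ⟨f, fun i j => A i j, hf, hode⟩, fun i j => (hH l).gfun i j,
      ⟨W, hW, fun i j => hWG i j⟩⟩
  · funext i
    rw [hc i z t hz ht]
    refine Finset.sum_congr rfl fun j _ => ?_
    have h3 : (-t) (co i) ^ (j : ℕ) = (-1) ^ (j : ℕ) * t (co i) ^ (j : ℕ) := by rw [Pi.neg_apply, neg_pow]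
    have h1 : ((-1 : ℂ) ^ (j : ℕ)) * (-1) ^ (j : ℕ) = 1 := by
      rw [← mul_pow]
      simp
    have h2 : (-1) ^ (j : ℕ) * c₀ i j + ∑ a, ∑ b, ((-1) ^ (j : ℕ) * c i j a b) * value (H (co i) a b) (z (co i)) =
        (-1) ^ (j : ℕ) * (c₀ i j + ∑ a, ∑ b, c i j a b * value (H (co i) a b) (z (co i))) := by
      rw [mul_add, Finset.mul_sum]
      congr 1
      refine Finset.sum_congr rfl fun a _ => ?_
      rw [Finset.mul_sum]
      exact Finset.sum_congr rfl fun b _ => by ring
    rw [h2, h3]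
    linear_combination (-(c₀ i j + ∑ a, ∑ b, c i j a b * value (H (co i) a b) (z (co i)))) * t (co i) ^ (j : ℕ) * h1

theorem relation_iff {P P' : (Fin p → ℂ) → (Fin p → ℂ) → ι → ℂ} {ρ : ℝ} {L : Type} [Field L]
    [NumberField L] [Algebra L ℂ] {n : Fin p → ℕ} {H : ∀ l, Matrix (Fin (n l)) (Fin (n l)) (PowerSeries L)}
    (R : RepL P' ρ H) {r : ℝ} (hr : 0 < r) (hrρ : r ≤ ρ) (hp : Pool.Agent.NH25.UF.An P' r)
    (hP : ∀ z t : Fin p → ℂ, (∀ l, ‖z l‖ < ρ) → (∀ l, Complex.exp (t l) = z l) → P z t = P' z (-t))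
    (G : MvPolynomial ι (MvPolynomial (Fin p) QBar)) : Relation P G ↔ G ∈ Pool.Agent.NH25.UF.relI P' r := by
  rw [Pool.Agent.NH25.UF.rel_iff R hr hrρ hp G]
  constructor
  · rintro ⟨r', hr', h⟩
    refine ⟨min r' ρ, lt_min hr' (hr.trans_le hrρ), fun z t hz ht => ?_⟩
    have h1 := h z t (fun l => (hz l).trans_le (min_le_left _ _)) ht
    unfold special at h1
    rw [MvPolynomial.aeval_def, MvPolynomial.eval₂_map, hP z t (fun l => (hz l).trans_le (min_le_right _ _)) ht] at h1
    exact h1
  · rintro ⟨r', hr', h⟩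
    refine ⟨min r' ρ, lt_min hr' (hr.trans_le hrρ), fun z t hz ht => ?_⟩
    unfold special
    rw [MvPolynomial.aeval_def, MvPolynomial.eval₂_map, hP z t (fun l => (hz l).trans_le (min_le_right _ _)) ht]
    exact h z t (fun l => (hz l).trans_le (min_le_left _ _)) ht

theorem noAlg_of {P P' : (Fin p → ℂ) → (Fin p → ℂ) → ι → ℂ} {ρ : ℝ} {L : Type} [Field L]
    [NumberField L] [Algebra L ℂ] {n : Fin p → ℕ} {H : ∀ l, Matrix (Fin (n l)) (Fin (n l)) (PowerSeries L)}
    (R : RepL P' ρ H) {r : ℝ} (hr : 0 < r) (hrρ : r ≤ ρ) (hp : Pool.Agent.NH25.UF.An P' r)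
    (hP : ∀ z t : Fin p → ℂ, (∀ l, ‖z l‖ < ρ) → (∀ l, Complex.exp (t l) = z l) → P z t = P' z (-t))
    (hH : NoAlgebraicFunctions P) [Fintype ι] : Pool.Agent.NH25.UF.NoAlg (Pool.Agent.NH25.UF.relI P' r) := by
  intro G₁ G₂ h2 q hq h
  rw [← relation_iff R hr hrρ hp hP] at h2 h
  obtain ⟨a, b, hb, hab⟩ := hH G₁ G₂ h2 q hq h
  exact ⟨a, b, hb, (relation_iff R hr hrρ hp hP _).1 hab⟩

theorem holds_iff {P P' : (Fin p → ℂ) → (Fin p → ℂ) → ι → ℂ} {ρ : ℝ} {L : Type} [Field L]
    [NumberField L] [Algebra L ℂ] {n : Fin p → ℕ} {H : ∀ l, Matrix (Fin (n l)) (Fin (n l)) (PowerSeries L)}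
    (R : RepL P' ρ H) {r : ℝ} (hr : 0 < r) (hrρ : r ≤ ρ) (hp : Pool.Agent.NH25.UF.An P' r)
    (hP : ∀ z t : Fin p → ℂ, (∀ l, ‖z l‖ < ρ) → (∀ l, Complex.exp (t l) = z l) → P z t = P' z (-t))
    (G : MvPolynomial ι (MvPolynomial (Fin p) QBar)) : Holds P r G ↔ G ∈ Pool.Agent.NH25.UF.relI P' r := by
  constructor
  · intro h
    exact (relation_iff R hr hrρ hp hP G).1 ⟨r, hr, h⟩
  · intro h z t hz ht
    unfold special
    rw [MvPolynomial.aeval_def, MvPolynomial.eval₂_map, hP z t (fun l => (hz l).trans_le hrρ) ht]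
    exact Pool.Agent.NH25.UF.mem_relI.1 h z hz (-t)

theorem fibreIdeal_eq {P P' : (Fin p → ℂ) → (Fin p → ℂ) → ι → ℂ} {ρ : ℝ} {L : Type} [Field L]
    [NumberField L] [Algebra L ℂ] {n : Fin p → ℕ} {H : ∀ l, Matrix (Fin (n l)) (Fin (n l)) (PowerSeries L)}
    (R : RepL P' ρ H) {r : ℝ} (hr : 0 < r) (hrρ : r ≤ ρ) (hp : Pool.Agent.NH25.UF.An P' r)
    (hP : ∀ z t : Fin p → ℂ, (∀ l, ‖z l‖ < ρ) → (∀ l, Complex.exp (t l) = z l) → P z t = P' z (-t))
    (s : Fin p → QBar) : fibreIdeal P r (fun l => (s l : ℂ)) =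
      (Pool.Agent.NH25.UF.relI P' r).map (MvPolynomial.map (MvPolynomial.eval s)) := by
  unfold fibreIdeal
  show _ = Ideal.span _
  congr 1
  ext g
  have h1 : ∀ G : MvPolynomial ι (MvPolynomial (Fin p) QBar), special G (fun l => (s l : ℂ)) =
      (G.map (MvPolynomial.eval s)).map (algebraMap QBar ℂ) := fun G =>
    (Pool.Agent.NH25.UF.map_comp_coe QBar s G).symm
  constructor
  · rintro ⟨G, hG1, hG2⟩
    refine ⟨G, (holds_iff R hr hrρ hp hP G).1 hG1, ?_⟩
    rw [h1] at hG2
    exact MvPolynomial.map_injective _ (algebraMap QBar ℂ).injective hG2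
  · rintro ⟨G, hG1, rfl⟩
    exact ⟨G, (holds_iff R hr hrρ hp hP G).2 hG1, h1 G⟩

theorem statement_of [Fintype ι] {P P' : (Fin p → ℂ) → (Fin p → ℂ) → ι → ℂ} {ρ : ℝ} {L : Type} [Field L]
    [NumberField L] [Algebra L ℂ] {n : Fin p → ℕ} {H : ∀ l, Matrix (Fin (n l)) (Fin (n l)) (PowerSeries L)}
    (R : RepL P' ρ H) {r : ℝ} (hr : 0 < r) (hrρ : r ≤ ρ) (hp : Pool.Agent.NH25.UF.An P' r)
    (hP : ∀ z t : Fin p → ℂ, (∀ l, ‖z l‖ < ρ) → (∀ l, Complex.exp (t l) = z l) → P z t = P' z (-t)) {D δ : ℕ}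
    {z : Fin p → ℂ} (h : Pool.Agent.NH25.UF.Pnt D P' r δ z) : StatementForAll P r D δ z := by
  obtain ⟨hz, s, rfl, hs⟩ := h
  intro K₀ hK₀ hKD t ht F hF h0
  have hmap : ∀ y : ι → ℂ, MvPolynomial.aeval y (F.map (algebraMap (residueField K₀ fun l => (s l : ℂ)) ℂ)) =
      MvPolynomial.aeval y F := by
    intro y
    rw [MvPolynomial.aeval_map_algebraMap]
  obtain ⟨h1, h2⟩ := hs K₀ hK₀ hKD (-t) fun l => by
    rw [Pi.neg_apply, Complex.exp_neg, ht l, one_div]
  have hd : (F.map (algebraMap (residueField K₀ fun l => (s l : ℂ)) ℂ)).totalDegree ≤ δ :=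
    (Finset.sup_mono (MvPolynomial.support_map_subset _ _)).trans hF
  have hc : ∀ e, (F.map (algebraMap (residueField K₀ fun l => (s l : ℂ)) ℂ)).coeff e ∈
      K₀ ⊔ IntermediateField.adjoin ℚ (Set.range fun l => (s l : ℂ)) := fun e => by
    rw [MvPolynomial.coeff_map]
    exact (F.coeff e).2
  have hv : MvPolynomial.aeval (P' (fun l => (s l : ℂ)) (-t))
      (F.map (algebraMap (residueField K₀ fun l => (s l : ℂ)) ℂ)) = 0 := by
    rw [hmap, ← hP _ t (fun l => (hz l).trans_le hrρ) ht]
    exact h0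
  refine ⟨?_, fun hna => ?_⟩
  · obtain ⟨𝔮, h𝔮, F', hF', hFF⟩ := h1 _ hd hc hv
    refine ⟨_, ⟨𝔮, ?_, rfl⟩, fun y hy => ?_⟩
    · rw [fibreIdeal_eq R hr hrρ hp hP s]
      exact h𝔮
    · rw [← hmap, ← hFF, MvPolynomial.aeval_map_algebraMap]
      exact hy F' hF'
  · obtain ⟨G, hG1, hG2, hG3⟩ := h2 (noAlg_of R hr hrρ hp hP hna) _ hd hc hv
    have hG : Holds P r G := (holds_iff R hr hrρ hp hP G).2 (Pool.Agent.NH25.UF.mem_relI.2 hG2)
    refine ⟨fun y hy => ?_, G, hG1, hG, hG3⟩
    rw [← hmap, ← hG3]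
    exact hy G hG

/-- the conclusion from a representation -/
theorem almost_of [Finite ι] {P P' : (Fin p → ℂ) → (Fin p → ℂ) → ι → ℂ} {ρ : ℝ} (hρ : 0 < ρ) {L : Type} [Field L]
    [NumberField L] [Algebra L ℂ] {n : Fin p → ℕ} {N : ∀ l, Matrix (Fin (n l)) (Fin (n l)) ℤ}
    {H : ∀ l, Matrix (Fin (n l)) (Fin (n l)) (PowerSeries L)} (hH : ∀ l, LFam (N l) (H l)) (R : RepL P' ρ H)
    (hP : ∀ z t : Fin p → ℂ, (∀ l, ‖z l‖ < ρ) → (∀ l, Complex.exp (t l) = z l) → P z t = P' z (-t)) : AlmostAll P ρ := by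
  classical
  have := Fintype.ofFinite ι
  obtain ⟨r, hr, hrr, hAn, hcount, -⟩ := Pool.Agent.NH25.UF.full_count R hρ hH
  refine ⟨r, hr, hrr, fun m η hm hη hη1 => ?_⟩
  have hexp : size m = ∑ l, Sl.Mm (m l) := Finset.sum_congr rfl fun l _ => (Sl.Mm_eq (m l)).symm
  have hmain : ∀ δ D : ℕ, ∃ c C : ℝ, 0 < c ∧
      ∀ T : ℕ, 1 ≤ T → ∀ a : Fin p → ℕ, (∀ l, 1 ≤ a l ∧ (a l : ℝ) ≤ (T : ℝ) ^ (1 - η)) →
      ((Exceptional P r D δ m T a).ncard : ℝ) ≤ C * (T : ℝ) ^ ((size m : ℝ) - c) := by
    intro δ D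
    obtain ⟨c, C, hc, -, hC⟩ := hcount δ D m η hη hη1
    refine ⟨c, C, hc, fun T hT a ha => ?_⟩
    have h5 := hC T hT a ha
    rw [← hexp, ← Set.ncard_coe_finset, Finset.coe_filter] at h5
    refine le_trans ?_ h5
    refine Nat.cast_le.2 (Set.ncard_le_ncard (fun β hβ => ?_) ((Finset.finite_toSet _).subset fun β hβ => hβ.1))
    obtain ⟨h1, h2⟩ := hβ
    refine ⟨Fintype.mem_piFinset.2 fun l => ?_, fun hh => h2 ⟨hh.1, statement_of R hr hrr hAn hP hh⟩⟩
    exact Sl.mem_NF.2 (Sl.SInt.aint (h1 l))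
  refine ⟨hmain, ?_⟩
  choose c C hc hcount using hmain
  obtain ⟨d, hd, hε⟩ := Pool.Agent.Y123.GN.diag_seq (fun D T => C D D * (1 / (T : ℝ) ^ (c D D))) (by
    intro D
    have h2 : Tendsto (fun N : ℕ => (1 : ℝ) / (N : ℝ) ^ (c D D)) atTop (nhds 0) := by
      have h3 := (tendsto_rpow_atTop (hc D D)).comp tendsto_natCast_atTop_atTop
      have h4 := h3.inv_tendsto_atTop
      refine h4.congr fun N => ?_
      rw [one_div]
      rfl
    have h5 := h2.const_mul (C D D)
    rw [mul_zero] at h5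
    exact h5)
  refine ⟨d, _, hd, hε, ?_⟩
  intro T hT a ha
  refine (hcount (d T) (d T) T hT a ha).trans (le_of_eq ?_)
  have hT0 : (0 : ℝ) < T := by exact_mod_cast hT
  rw [Real.rpow_sub hT0, Real.rpow_natCast]
  ring

end proof

/-- **The theorem.** -/
theorem result :
    -- the number of the tuples
    (∀ (p : ℕ) (m : Fin p → ℕ), (∀ l, 1 ≤ m l) → ∃ c₀ : ℝ, 0 < c₀ ∧ ∀ T : ℕ, 1 ≤ T → (Tuples m T).Finite ∧
      c₀ * (T : ℝ) ^ size m ≤ ((Tuples m T).ncard : ℝ)) ∧
    -- families of functions which are represented by G-functions and logarithms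
    (∀ (p : ℕ) (ι : Type) (_ : Finite ι) (P : (Fin p → ℂ) → (Fin p → ℂ) → ι → ℂ) (ρ : ℝ), 0 < ρ → LogRepresented P ρ →
      AlmostAll P ρ) ∧
    -- the periods of families of curves
    (∀ (p : ℕ) (X : Fin p → CurveFamily), 1 ≤ p → ∃ E : Finset ℂ, ∀ c : Fin p → ℂ,
      (∀ l, IsAlgebraic ℚ (c l) ∧ c l ∉ E) → ∀ (q : ℕ) (ρ : ℝ) (σ : Fin p → ℕ)
      (γ : ∀ l, Fin (σ l) → TransportedLoop (X l) (c l) ρ) (w : Fin q → ℂ), 0 < ρ → AlmostAll (periods X c γ w) ρ) := by
  classical
  refine ⟨?_, ?_, ?_⟩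
  · intro p m hm
    have hexp : size m = ∑ l, Pool.Agent.Y916.Sl.Mm (m l) :=
      Finset.sum_congr rfl fun l _ => (Pool.Agent.Y916.Sl.Mm_eq (m l)).symm
    choose c₁ hc₁ hmany using fun i => Pool.Agent.Y916.Sl.many (m i) (hm i)
    refine ⟨∏ i, c₁ i, Finset.prod_pos fun i _ => hc₁ i,
      fun T hT => ⟨Set.Finite.pi' fun i => Pool.Agent.Y916.Sl.sint_fin (m i) T, ?_⟩⟩
    have h1 : ((Tuples m T).ncard : ℝ) = ∏ i, ({ξ : ℂ | House (m i) T ξ}.ncard : ℝ) := by
      have h2 : Tuples m T = Set.univ.pi fun i => {ξ : ℂ | House (m i) T ξ} := by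
        ext β
        simp [Tuples]
      have hf : ∀ i, {ξ : ℂ | House (m i) T ξ}.Finite := fun i => Pool.Agent.Y916.Sl.sint_fin (m i) T
      have h3 : (Set.univ.pi fun i => {ξ : ℂ | House (m i) T ξ}) =
          ((Fintype.piFinset fun i => (hf i).toFinset : Finset (Fin p → ℂ)) : Set (Fin p → ℂ)) := by
        ext β
        simp
      rw [h2, h3, Set.ncard_coe_finset, Fintype.card_piFinset]
      push_cast
      refine Finset.prod_congr rfl fun i _ => ?_
      rw [Set.ncard_eq_toFinset_card _ (hf i)]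
    rw [h1, hexp, ← Finset.prod_pow_eq_pow_sum, ← Finset.prod_mul_distrib]
    refine Finset.prod_le_prod (fun i _ => ?_) fun i _ => hmany i T hT
    have := hc₁ i
    positivity
  · intro p ι _ P ρ hρ h
    obtain ⟨P', L, i1, i2, i3, n, N, H, hH, ⟨R⟩, hP⟩ := rep_of h
    exact almost_of hρ hH R hP
  · intro p X hp
    obtain ⟨E, hE⟩ := Pool.Agent.NH25.CV.curves_rep (fun l => (X l).F) (fun l => (X l).Q) (fun l => (X l).monic)
      (fun l => (X l).degree_pos) (fun l => (X l).ne_zero) (fun l => (X l).unramified) (fun l => (X l).r)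
      (fun l => (X l).P) (fun l => (X l).k)
    refine ⟨E, fun c hc q ρ σ γ w hρ => ?_⟩
    obtain ⟨K, hK, n, f, A, Z, W, hD, ρ', hρ', hrep⟩ := hE c hc
    have hnf : NumberField K := { to_charZero := inferInstance, to_finiteDimensional := hK }
    have hrep' : ∀ i : (Σ l, Fin (σ l) × Fin (X l).r) ⊕ Fin q, ∃ (l : Fin p) (c₀ : ℂ) (cc : Fin (n l) → Fin (n l) → ℂ),
        ∀ z : Fin p → ℂ, (∀ l, ‖z l‖ < min ρ ρ') → periods X c γ w z 0 i = c₀ + ∑ a, ∑ b, cc a b *
          Pool.Agent.Y921.DB.VL (Z l a b) (z l) := by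
      rintro (⟨l, s, i⟩ | j)
      · obtain ⟨cc, hcc⟩ := hrep (min ρ ρ') (lt_min hρ hρ') (min_le_right _ _) l (γ l s).x (γ l s).y
          (Pool.Agent.NH25.CV.Lpp.mono ⟨(γ l s).smooth, (γ l s).continuous, (γ l s).closed_x, (γ l s).closed_y,
            (γ l s).curve, (γ l s).away⟩ (min_le_left _ _)) i
        refine ⟨l, 0, cc, fun z hz => ?_⟩
        rw [zero_add]
        exact hcc (z l) (hz l)
      · refine ⟨⟨0, hp⟩, w j, 0, fun z hz => ?_⟩
        simp [periods]
    choose co c₀ cc hcc using hrep'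
    let R : Pool.Agent.NH25.DG.Rep (fun z => periods X c γ w z 0) (min ρ ρ') Z := ⟨co, c₀, cc, fun z hz i => hcc i z hz⟩
    obtain ⟨r, hr, hrr, ⟨R'⟩⟩ := Pool.Agent.NH25.DL.Rep.toL (lt_min hρ hρ') R hD
    obtain ⟨r', h1, h2, h3⟩ := almost_of (P := periods X c γ w) (P' := fun z _ => periods X c γ w z 0) hr
      (fun l => Pool.Agent.NH25.DL.lfam_of (hD l)) R' (fun z t _ _ => rfl)
    exact ⟨r', h1, h2.trans (hrr.trans (min_le_left _ _)), h3⟩

end Pool.Agent.Results.MP_5591bc_ag.AllFamiliesOfCurves
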