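import Pool.Agent.NH25.BD.Cnt
import Pool.Agent.NH25.BD.Clo
import Pool.Agent.Y916.Sl.Many
import Pool.Agent.Y123.ST.Out

/-!
# The relations of bounded degree between the periods of the fibres at almost all algebraic points

Let `X_i → U_i`, `1 ≤ i ≤ k`, be families of smooth projective varieties over curves over `ℚ`, with a coordinate `x` at a
rational point `0` where `X_i` is smooth or degenerates with unipotent local monodromy. In rational bases of the canonical
extension the period matrix (rows: Betti, columns: de Rham) of a cohomology group of the fibres is `P_i(x) = Ω_i x^(N_i) H_i(x)`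
with a nilpotent rational matrix `N_i` (which can be made integral), `Ω_i ∈ GL(ℂ)` and a matrix `H_i` of power series over `ℚ`,
`H_i(0) = 1`, such that the entries of `H_i` and `H_i⁻¹` are G-functions (`GFamily`, which makes no reference to geometry). We
consider the product of the families, over `S = U_1 × … × U_k`, and the sum of the cohomology groups. Let `M_0` be any object
over a number field, with period matrix `C₀`, and let `c = C₀ ⊕ ⨁_i P_i(s_i)` be the period matrix of the sum of `M_0` and of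
the fibre at the algebraic point `s = (s_1, …, s_k)`; the values of the logarithms at the points `s_i`, that is the paths, are
arbitrary. Let `Gal(P_i)` be the group of the matrices `g` such that `P_i` and `g P_i` satisfy the same polynomial relations
over `ℂ(x, log x)`. It is a normal subgroup of the Zariski closure of the monodromy group.

**Conclusion** (`Good D δ`) at the point `s`, for natural numbers `D` and `δ`: for all paths and all number fields `K` of degree at
most `D` (there is no relation between `K` and the field of definition `κ(s)`), all polynomials `F` over `K` of degree at most `δ`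
in all entries of the matrix, with arbitrary coefficients in `K`, and with `F(c) = 0`:

1. `F(C₀ ⊕ ⨁ g_i P_i(s_i)) = 0` for all `g_i` in the group generated by all unipotent one-parameter groups in `Gal(P_i)`. This
   group is the connected component of the Zariski closure of the monodromy group, as this component is semisimple for
   families of smooth projective varieties by a theorem of Deligne.
2. Let `Gal(P_i)` contain, for all `i`, the group `special(B_i)` of the matrices of determinant `1` which respect a form `B_i`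
   (`Big`), where `B_i` is alternating and nondegenerate, or symmetric and nondegenerate of rank `≠ 2`, or zero. Then
   `F(C₀ ⊕ ⨁ Y_i) = 0` for all isomorphisms `Y_i` which respect the polarisations with the same multipliers as the
   `P_i(s_i)`, and have the same determinants (in the symplectic case the determinant is superfluous).
3. (The degree `δ` version of the conjecture.) Let moreover `M_0` be `ℚ(-1)` or a sum of copies of it, `C₀ = 2πi`: so we consider
   for example the families `X_i × ℙ¹`. Let `Φ` be a polarisation over `S` and let `c` be in the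
   fibre `Torsor(s)` over `s` of the torsor of all isomorphisms `z ⊕ ⨁ X_i` with `X_i Q_i(s_i) X_i^t = τ_i(s_i) z^(w_i) B_i` and
   `σ_i(s_i) det X_i = ε_i(s_i) z^(m_i)`; here the forms `Q_i` are matrices of polynomials over the field of all algebraic numbers,
   and `τ_i`, `σ_i`, `ε_i` are such polynomials, without zero at `s_i` for `τ_i` and `σ_i`. Then `F` vanishes at all points
   of `Torsor(s)`.
4. In particular let `Γ` be any set of points `(x, y)` with `x ∈ ℂ^k` and `y` in the part of `Torsor(x)` with `z = 2πi`, for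
   example, if the `U_i` are open in the affine line with the coordinate `x_i`, the graph of the multivalued period matrix (all
   branches over all of `S`: polarisations are invariant under monodromy). Let `B_P` be its Zariski closure over the algebraic
   numbers in the product of affine `k`-space and `GL`. If `(s, c) ∈ Γ` then `F` vanishes on the fibre `B_(P,s)` (`closureAt`).
   This is the question of the problem for relations of degree at most `δ`, over all number fields of degree at most `D` in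
   place of `κ(s)`.

**Theorem.**

(A) (Almost all algebraic points.) Let `m_i ≥ 1`, `0 < η ≤ 1` and `D`, `δ` be given. There are `c > 0` and `C` such that for all
invertible `Ω_i`, all `C₀` of a given size, all `T ≥ 1` and all integers `a_i` in `[1, T^(1 - η)]` the conclusion `Good D δ` holds for
the points `s_i = a_i / β_i` for all but `C T^(∑ m_i (m_i + 1) / 2 - c)` of the `k`-tuples of algebraic integers `β_i` of degree at
most `m_i` all of whose conjugates are bounded by `T`; the number of all these tuples is at least `c₀ T^(∑ m_i (m_i + 1) / 2)`. Moreover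
there are functions `κ(T) → ∞` and `ε(T) → 0` such that `Good (κ T) (κ T)` holds for all but `ε(T) T^(∑ m_i (m_i + 1) / 2)` of the
tuples.

(B) (A bounded number of exceptions in windows.) Let the entries of `Ω` and `C₀` be given polynomials over `ℚ` in given
constants `Θ` and `q` further numbers `w`. There is `G₀` such that for all `G ≥ G₀`, `k`, `D`, `δ`, `m`, `A` there is `E` such that
for all algebraic numbers `ξ` of degree at most `m` and height at most `|ξ|^A`, all `L` with `(L + 2)^E ≤ |ξ|` and all `w ∈ ℂ^q`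
there is a set of at most `trdeg ℚ(2πi, Θ) + q + 1` exceptional numbers such that the conclusion `Good D δ` holds for all `k`-tuples of
different points `s_j = 1 / (ξ - G u_j)`, `1 ≤ u_j ≤ L`, `u_j` not exceptional (and one family).

What was known is, for one family, that the degree `δ` version over `κ(s)` holds on a set of points which is dense in the analytic
topology, and for integers `t` of density one in the family `y² = f(x) (x - t)`. The starting files treat all relations of bounded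
degree for explicit families of elliptic, hyperelliptic and other curves at rational points, or with a bound for the
coefficients at algebraic points; we know no theorem for general families. The theorems AlgebraicPointsTorsors and
UnboundedProducts (MP_caab05_ag) are about subtorsors only; here there is no condition on the polynomial `F` except for its
degree.

Proof (`Pool/Agent/NH25/BD`). The relations of bounded degree between free coordinates of `H_i` and the logarithm are treated in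
the starting files for windows of integral translates of an algebraic number; the tuples `β` are compared with their
translates `β + G a g` (`Pool/Agent/NH25/AP`). The transition to all coordinates is done on the curves `(ℓ, H)` along which
`P_i = Ω_i exp(-ℓ N_i) H_i` moves on the orbit of a polynomial curve in the group generated by the unipotent one-parameter groups;
they lie in the fibres of the functional relations by analytic continuation in `ℓ`. This gives 1. As the groups `special(B_i)`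
are generated by unipotent one-parameter groups, 2 follows. For 3 let `(z, X)` be a point of the torsor with transcendental
`z`. An automorphism of `ℂ` over the algebraic numbers with `z ↦ 2πi` moves it to a point as in 2. In general one moves `z` to a
transcendental number near `z`, within the torsor.
-/

set_option autoImplicit false

open PowerSeries Filter
open scoped Matrix

namespace Pool.Agent.Results.MP_5591bc_ag.BoundedDegreeAlgebraicPoints

/-- an integer polynomial as a power series with rational coefficients -/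
noncomputable def toQ (P : Polynomial ℤ) : PowerSeries ℚ := ((P.map (Int.castRingHom ℚ) : Polynomial ℚ) : PowerSeries ℚ)

/-- The arithmetic conditions in the definition of a G-function, for a power series with rational coefficients: geometric
growth of the coefficients and of their common denominators. -/
def GCond (g : PowerSeries ℚ) : Prop := ∃ C : ℝ, (∀ m, |((coeff m g : ℚ) : ℝ)| ≤ C ^ (m + 1)) ∧
  ∀ m, ∃ d : ℕ, 0 < d ∧ (d : ℝ) ≤ C ^ (m + 1) ∧ ∀ j ≤ m, ∃ a : ℤ, (d : ℚ) * coeff j g = a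

/-- The matrix `x^N H(x)` is a fundamental matrix (rows: solutions) of a differential system over `ℚ(x)`, `N` is nilpotent,
`H(0) = 1` and the entries of `H` and of the inverse matrix are G-functions. -/
structure GFamily {n : ℕ} (N : Matrix (Fin n) (Fin n) ℤ) (H : Matrix (Fin n) (Fin n) (PowerSeries ℚ)) : Prop where
  /-- `N` is nilpotent -/
  nil : N ^ n = 0
  /-- `H(0) = 1` -/
  one : ∀ i j, coeff 0 (H i j) = if i = j then 1 else 0
  /-- the differential system: `T (x H' + N H) = H A` -/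
  ode : ∃ (T : Polynomial ℤ) (A : Fin n → Fin n → Polynomial ℤ), T ≠ 0 ∧ ∀ i j,
    toQ T * (X * PowerSeries.derivative ℚ (H i j) + ∑ l, C (N i l : ℚ) * H l j) = ∑ l, H i l * toQ (A l j)
  /-- the entries are G-functions -/
  gfun : ∀ i j, GCond (H i j)
  /-- the entries of the inverse matrix are G-functions -/
  inv : ∃ W : Matrix (Fin n) (Fin n) (PowerSeries ℚ), H * W = 1 ∧ ∀ i j, GCond (W i j)

section family
variable {n : ℕ}

/-- The period matrix `Ω x^N H(x)` at `x = 1 / z` for the value `-ℓ` of `log x`, where `ℓ` is a logarithm of `z`. -/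
noncomputable def perMat (N : Matrix (Fin n) (Fin n) ℤ) (H : Matrix (Fin n) (Fin n) (PowerSeries ℚ))
    (Ω : Matrix (Fin n) (Fin n) ℂ) (z ℓ : ℂ) : Matrix (Fin n) (Fin n) ℂ :=
  Ω * (∑ q ∈ Finset.range (n + 1), ((-ℓ) ^ q / (q.factorial : ℂ)) • (N ^ q).map (Int.cast : ℤ → ℂ)) *
    Matrix.of fun i j => ∑' m : ℕ, ((coeff m (H i j) : ℚ) : ℂ) * (1 / z) ^ m

/-- the value at `x`, at the value `ℓ` of the variable `none` and at the matrix `Z` of a polynomial over `ℂ[x]` in the
variable `none` and the entries of a matrix -/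
noncomputable def relAt (R : MvPolynomial (Option (Fin n × Fin n)) (Polynomial ℂ)) (x ℓ : ℂ)
    (Z : Matrix (Fin n) (Fin n) ℂ) : ℂ :=
  MvPolynomial.eval₂ (Polynomial.evalRingHom x) (fun o => o.elim ℓ fun v => Z v.1 v.2) R

/-- `g P(x)` satisfies all polynomial relations over `ℂ[x, log x]` which `P(x)` satisfies (`x = 1 / s`, `s` real). -/
def Preserves (N : Matrix (Fin n) (Fin n) ℤ) (H : Matrix (Fin n) (Fin n) (PowerSeries ℚ))
    (Ω g : Matrix (Fin n) (Fin n) ℂ) : Prop :=
  ∀ R : MvPolynomial (Option (Fin n × Fin n)) (Polynomial ℂ),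
    (∀ᶠ s : ℝ in Filter.atTop,
      relAt R (1 / (s : ℂ)) ((Real.log s : ℝ) : ℂ) (perMat N H Ω s ((Real.log s : ℝ) : ℂ)) = 0) →
    ∀ᶠ s : ℝ in Filter.atTop,
      relAt R (1 / (s : ℂ)) ((Real.log s : ℝ) : ℂ) (g * perMat N H Ω s ((Real.log s : ℝ) : ℂ)) = 0

/-- The group of the matrices `g` such that `g` and `g⁻¹` preserve the relations: the differential Galois group of the
system over `ℂ(x, log x)`. -/
noncomputable def Gal (N : Matrix (Fin n) (Fin n) ℤ) (H : Matrix (Fin n) (Fin n) (PowerSeries ℚ))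
    (Ω : Matrix (Fin n) (Fin n) ℂ) : Subgroup (Matrix.GeneralLinearGroup (Fin n) ℂ) where
  carrier := {g | Preserves N H Ω (g : Matrix (Fin n) (Fin n) ℂ) ∧
    Preserves N H Ω ((g⁻¹ : Matrix.GeneralLinearGroup (Fin n) ℂ) : Matrix (Fin n) (Fin n) ℂ)}
  mul_mem' := fun hg hg' => (Pool.Agent.NH25.AP.Gl N H Ω).mul_mem' hg hg'
  one_mem' := (Pool.Agent.NH25.AP.Gl N H Ω).one_mem'
  inv_mem' := fun hg => (Pool.Agent.NH25.AP.Gl N H Ω).inv_mem' hg

theorem gal_eq (N : Matrix (Fin n) (Fin n) ℤ) (H : Matrix (Fin n) (Fin n) (PowerSeries ℚ))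
    (Ω : Matrix (Fin n) (Fin n) ℂ) : Gal N H Ω = Pool.Agent.NH25.AP.Gl N H Ω := rfl

/-- the nilpotent matrices `A` with `exp (t A) ∈ G` for all `t` -/
def nilpotents (G : Subgroup (Matrix.GeneralLinearGroup (Fin n) ℂ)) : Set (Matrix (Fin n) (Fin n) ℂ) :=
  {A | IsNilpotent A ∧ ∀ t : ℂ, ∃ u ∈ G, (u : Matrix (Fin n) (Fin n) ℂ) = IsNilpotent.exp (t • A)}

/-- the subgroup generated by all unipotent one-parameter groups in `G` -/
def unipotents (G : Subgroup (Matrix.GeneralLinearGroup (Fin n) ℂ)) : Subgroup (Matrix.GeneralLinearGroup (Fin n) ℂ) :=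
  Subgroup.closure {u | ∃ A ∈ nilpotents G, ∃ t : ℂ, (u : Matrix (Fin n) (Fin n) ℂ) = IsNilpotent.exp (t • A)}

/-- the matrices of determinant `1` which respect the form `B`; the special linear group for `B = 0` -/
def special (B : Matrix (Fin n) (Fin n) ℂ) : Subgroup (Matrix.GeneralLinearGroup (Fin n) ℂ) where
  carrier := {g | (g : Matrix (Fin n) (Fin n) ℂ).det = 1 ∧
    (g : Matrix (Fin n) (Fin n) ℂ) * B * (g : Matrix (Fin n) (Fin n) ℂ)ᵀ = B}
  mul_mem' := fun hg hg' => (Pool.Agent.Y123.GN.GB B).mul_mem' hg hg'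
  one_mem' := (Pool.Agent.Y123.GN.GB B).one_mem'
  inv_mem' := fun hg => (Pool.Agent.Y123.GN.GB B).inv_mem' hg

/-- nondegenerate alternating forms -/
def Symplectic (B : Matrix (Fin n) (Fin n) ℂ) : Prop := IsUnit B ∧ Bᵀ = -B

/-- The form is zero, or nondegenerate and alternating, or nondegenerate and symmetric of rank different from `2`. -/
def Classical (B : Matrix (Fin n) (Fin n) ℂ) : Prop := B = 0 ∨ Symplectic B ∨ (IsUnit B ∧ Bᵀ = B ∧ n ≠ 2)

end family

/-- algebraic integers of degree at most `m` all of whose conjugates have absolute value at most `T` -/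
def House (m T : ℕ) (ξ : ℂ) : Prop :=
  IsIntegral ℤ ξ ∧ (minpoly ℚ ξ).natDegree ≤ m ∧ ∀ z : ℂ, Polynomial.aeval z (minpoly ℚ ξ) = 0 → ‖z‖ ≤ T

section
variable {k r : ℕ} {n : Fin k → ℕ}

/-- the block matrix `x ⊕ X_1 ⊕ … ⊕ X_k` -/
noncomputable def total (x : Matrix (Fin r) (Fin r) ℂ) (X : ∀ i, Matrix (Fin (n i)) (Fin (n i)) ℂ) :
    Matrix (Fin r ⊕ Σ i, Fin (n i)) (Fin r ⊕ Σ i, Fin (n i)) ℂ :=
  Matrix.fromBlocks x 0 0 (Matrix.blockDiagonal' X)

/-- the isomorphisms `X_i` respect the polarisations `Q_i` (de Rham) and `B_i` (Betti) up to the factors `μ_i` -/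
def Respects (B Q : ∀ i, Matrix (Fin (n i)) (Fin (n i)) ℂ) (μ : Fin k → ℂ)
    (X : ∀ i, Matrix (Fin (n i)) (Fin (n i)) ℂ) : Prop :=
  (∀ i, μ i ≠ 0) ∧ ∀ i, X i * Q i * (X i)ᵀ = μ i • B i

/-- The field of all algebraic numbers. -/
noncomputable abbrev QBar : IntermediateField ℚ ℂ := algebraicClosure ℚ ℂ

/-- the set of the sizes of the blocks -/
abbrev Ix (r : ℕ) (n : Fin k → ℕ) : Type := Fin r ⊕ Σ i, Fin (n i)

/-- the polynomial `F` vanishes at the matrix `y` -/
def Zero {K : IntermediateField ℚ ℂ} {B : Type} (F : MvPolynomial (B × B) K) (y : Matrix B B ℂ) : Prop :=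
  MvPolynomial.aeval (fun b : B × B => y b.1 b.2) F = 0

/-- the forms `B_i` on the Betti realizations and polarisations over the base: forms `Q_i(x_i)` on the de Rham
realizations; weights `w_i`; `ε_i / σ_i` identifies the determinants with a power of `ℚ(-1)` -/
structure Polarisation (n : Fin k → ℕ) where
  B : ∀ i, Matrix (Fin (n i)) (Fin (n i)) QBar
  Q : ∀ i, Matrix (Fin (n i)) (Fin (n i)) (Polynomial QBar)
  τ : Fin k → Polynomial QBar
  σ : Fin k → Polynomial QBar
  ε : Fin k → Polynomial QBar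
  w : Fin k → ℕ
  m : Fin k → ℕ

/-- the form `B_i` with complex coefficients -/
noncomputable def Polarisation.form (Φ : Polarisation n) (i : Fin k) : Matrix (Fin (n i)) (Fin (n i)) ℂ :=
  (Φ.B i).map (algebraMap QBar ℂ)

/-- the form `Q_i(x_i)` -/
noncomputable def Polarisation.deRham (Φ : Polarisation n) (x : Fin k → ℂ) (i : Fin k) :
    Matrix (Fin (n i)) (Fin (n i)) ℂ := (Φ.Q i).map (Polynomial.aeval (x i))

/-- the isomorphisms `X_i` and the isomorphism `z` for `ℚ(-1)` respect the polarisations and the determinants -/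
def Polarisation.Holds (Φ : Polarisation n) (x : Fin k → ℂ) (z : ℂ)
    (X : ∀ i, Matrix (Fin (n i)) (Fin (n i)) ℂ) : Prop :=
  ∀ i, X i * Φ.deRham x i * (X i)ᵀ = (Polynomial.aeval (x i) (Φ.τ i) * z ^ Φ.w i) • Φ.form i ∧
    (Symplectic (Φ.form i) ∨
      Polynomial.aeval (x i) (Φ.σ i) * (X i).det = Polynomial.aeval (x i) (Φ.ε i) * z ^ Φ.m i)

/-- the fibre over `x` of the torsor of the isomorphisms `z ⊕ … ⊕ z ⊕ X_1 ⊕ … ⊕ X_k` which respect the polarisations and the
determinants -/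
def Polarisation.Torsor (Φ : Polarisation n) (r : ℕ) (x : Fin k → ℂ) : Set (Matrix (Ix r n) (Ix r n) ℂ) :=
  {y | ∃ z : ℂ, z ≠ 0 ∧ ∃ X : ∀ i, Matrix (Fin (n i)) (Fin (n i)) ℂ, y = total (z • 1) X ∧ Φ.Holds x z X}

/-- the points of `Γ` are points of the torsor with `z = 2πi` -/
def Polarisation.Contains (Φ : Polarisation n) {r : ℕ} (Γ : Set ((Fin k → ℂ) × Matrix (Ix r n) (Ix r n) ℂ)) : Prop :=
  ∀ p ∈ Γ, ∃ X : ∀ i, Matrix (Fin (n i)) (Fin (n i)) ℂ,
    p.2 = total ((2 * Real.pi * Complex.I : ℂ) • 1) X ∧ Φ.Holds p.1 (2 * Real.pi * Complex.I) X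

/-- the value of a polynomial in the coordinates of `x` and the entries of `y` -/
noncomputable def value {r : ℕ} (R : MvPolynomial (Fin k ⊕ Ix r n × Ix r n) QBar)
    (p : (Fin k → ℂ) × Matrix (Ix r n) (Ix r n) ℂ) : ℂ :=
  MvPolynomial.aeval (Sum.elim p.1 fun b => p.2 b.1 b.2) R

/-- the fibre over `s` of the Zariski closure of `Γ` over the algebraic numbers in the product of affine space and `GL` -/
def closureAt {r : ℕ} (Γ : Set ((Fin k → ℂ) × Matrix (Ix r n) (Ix r n) ℂ)) (s : Fin k → ℂ) :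
    Set (Matrix (Ix r n) (Ix r n) ℂ) :=
  {y | IsUnit y ∧ ∀ R : MvPolynomial (Fin k ⊕ Ix r n × Ix r n) QBar, (∀ p ∈ Γ, value R p = 0) → value R (s, y) = 0}

/-- big monodromy groups -/
def Big (B : ∀ i, Matrix (Fin (n i)) (Fin (n i)) ℂ) (N : ∀ i, Matrix (Fin (n i)) (Fin (n i)) ℤ)
    (H : ∀ i, Matrix (Fin (n i)) (Fin (n i)) (PowerSeries ℚ)) (Ω : ∀ i, Matrix (Fin (n i)) (Fin (n i)) ℂ) : Prop :=
  ∀ i, Classical (B i) ∧ special (B i) ≤ Gal (N i) (H i) (Ω i)

/-- the values of the polynomials `τ_i` and `σ_i` at `s_i` are not zero -/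
def Polarisation.Regular (Φ : Polarisation n) (s : Fin k → ℂ) : Prop :=
  ∀ i, Polynomial.aeval (s i) (Φ.τ i) ≠ 0 ∧ Polynomial.aeval (s i) (Φ.σ i) ≠ 0

/-- the statements 1 - 4 for a polynomial `F` and the period matrix `C₀ ⊕ P_1 ⊕ … ⊕ P_k` of the fibre over `s` -/
def Conclusion {K : IntermediateField ℚ ℂ} (F : MvPolynomial (Ix r n × Ix r n) K) (C₀ : Matrix (Fin r) (Fin r) ℂ)
    (N : ∀ i, Matrix (Fin (n i)) (Fin (n i)) ℤ) (H : ∀ i, Matrix (Fin (n i)) (Fin (n i)) (PowerSeries ℚ))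
    (Ω : ∀ i, Matrix (Fin (n i)) (Fin (n i)) ℂ) (s : Fin k → ℂ) (P : ∀ i, Matrix (Fin (n i)) (Fin (n i)) ℂ) : Prop :=
  -- 1: unipotent elements
  (∀ g : ∀ i, Matrix.GeneralLinearGroup (Fin (n i)) ℂ, (∀ i, g i ∈ unipotents (Gal (N i) (H i) (Ω i))) →
    Zero F (total C₀ fun i => (g i : Matrix (Fin (n i)) (Fin (n i)) ℂ) * P i)) ∧
  -- 2: big monodromy, relative case
  (∀ B : ∀ i, Matrix (Fin (n i)) (Fin (n i)) ℂ, Big B N H Ω →
    ∀ (Q : ∀ i, Matrix (Fin (n i)) (Fin (n i)) ℂ) (μ : Fin k → ℂ) (Y : ∀ i, Matrix (Fin (n i)) (Fin (n i)) ℂ),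
      Respects B Q μ P → Respects B Q μ Y → (∀ i, Symplectic (B i) ∨ (P i).det = (Y i).det) → Zero F (total C₀ Y)) ∧
  -- 3 and 4: big monodromy, absolute case
  (0 < r → C₀ = (2 * Real.pi * Complex.I : ℂ) • 1 → ∀ Φ : Polarisation n, Big Φ.form N H Ω → Φ.Regular s →
    (Φ.Holds s (2 * Real.pi * Complex.I) P → ∀ y ∈ Φ.Torsor r s, Zero F y) ∧
    ∀ Γ : Set ((Fin k → ℂ) × Matrix (Ix r n) (Ix r n) ℂ), Φ.Contains Γ → (s, total C₀ P) ∈ Γ →
      ∀ y ∈ closureAt Γ s, Zero F y)

/-- The conclusion for the fibres at the points `s_i = 1 / z_i`, for all paths, all number fields of degree `≤ D` and all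
relations of degree `≤ δ`. -/
def Good (D δ : ℕ) (C₀ : Matrix (Fin r) (Fin r) ℂ) (N : ∀ i, Matrix (Fin (n i)) (Fin (n i)) ℤ)
    (H : ∀ i, Matrix (Fin (n i)) (Fin (n i)) (PowerSeries ℚ)) (Ω : ∀ i, Matrix (Fin (n i)) (Fin (n i)) ℂ)
    (z : Fin k → ℂ) : Prop :=
  ∀ ℓ : Fin k → ℂ, (∀ i, Complex.exp (ℓ i) = z i) →
  ∀ K : IntermediateField ℚ ℂ, FiniteDimensional ℚ K → Module.finrank ℚ K ≤ D →
  ∀ F : MvPolynomial (Ix r n × Ix r n) K, F.totalDegree ≤ δ →
    Zero F (total C₀ fun i => perMat (N i) (H i) (Ω i) (z i) (ℓ i)) →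
    Conclusion F C₀ N H Ω (fun i => 1 / z i) fun i => perMat (N i) (H i) (Ω i) (z i) (ℓ i)

open Pool.Agent.NH25.BD Pool.Agent.Y123.GN in
theorem good_of {D δ : ℕ} {C₀ : Matrix (Fin r) (Fin r) ℂ} {N : ∀ i, Matrix (Fin (n i)) (Fin (n i)) ℤ}
    {H : ∀ i, Matrix (Fin (n i)) (Fin (n i)) (PowerSeries ℚ)} {Ω : ∀ i, Matrix (Fin (n i)) (Fin (n i)) ℂ} {z : Fin k → ℂ}
    (hz : ∀ i, IsAlgebraic ℚ (z i))
    (hu : ∀ (i : Fin k) (l : ℂ), IsUnit (Pool.Agent.NH25.AP.pC (N i) (H i) (Ω i) (z i) l))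
    (hg : ∀ ℓ : Fin k → ℂ, (∀ i, Complex.exp (ℓ i) = z i) →
      GoodR D δ (fun i => Pool.Agent.NH25.AP.Gl (N i) (H i) (Ω i))
        (EG C₀ fun i => Pool.Agent.NH25.AP.pC (N i) (H i) (Ω i) (z i) (ℓ i))) :
    Good D δ C₀ N H Ω z := by
  intro ℓ hℓ K hKf hKD F hF h0
  have hG := hg ℓ hℓ
  have hu' : ∀ i, IsUnit (Pool.Agent.NH25.AP.pC (N i) (H i) (Ω i) (z i) (ℓ i)) := fun i => hu i _
  have hs : ∀ i, IsAlgebraic ℚ (1 / z i) := fun i => by
    rw [one_div]
    exact (hz i).inv
  refine ⟨?_, ?_, ?_⟩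
  · intro g hgU
    exact hG.blocks hKf hKD hgU F hF h0
  · intro B hB Q μ Y hP hY hd
    exact hG.fib hKf hKD hu' (fun i => (hB i).1) (fun i => (hB i).2) hP.1 hP.2 hY.2 hd F hF h0
  · intro hr hC₀ Φ hΦ hreg
    have htors : Φ.Holds (fun i => 1 / z i) (2 * Real.pi * Complex.I)
        (fun i => perMat (N i) (H i) (Ω i) (z i) (ℓ i)) → ∀ y ∈ Φ.Torsor r (fun i => 1 / z i), Zero F y := by
      rintro hh y ⟨t, ht, X, rfl, hX⟩
      rw [hC₀] at hG h0
      exact GoodR.tors hr hG hKf hKD hu' (B := Φ.B) (Q := Φ.Q) (τ := Φ.τ) (σ := Φ.σ) (ε := Φ.ε) (w := Φ.w) (m := Φ.m)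
        (fun i => (hΦ i).1) (fun i => (hΦ i).2) hs hh (fun i => (hreg i).1) (fun i => (hreg i).2) ht hX F hF h0
    refine ⟨htors, ?_⟩
    intro Γ hΓ hmem y hy
    have h1 : y ∈ Φ.Torsor r (fun i => 1 / z i) := by
      obtain ⟨t, ht, X, hX, hE⟩ := clo_eqs (B := Φ.B) (Q := Φ.Q) (τ := Φ.τ) (σ := Φ.σ) (ε := Φ.ε) (w := Φ.w)
        (m := Φ.m) hr hΓ hy.1 hy.2
      exact ⟨t, ht, X, hX, hE⟩
    refine htors ?_ y h1
    obtain ⟨X, hX, hE⟩ := hΓ _ hmem
    have h2 := EG_inj (hX : EG C₀ _ = EG _ X)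
    have h3 : X = fun i => perMat (N i) (H i) (Ω i) (z i) (ℓ i) := h2.2.symm
    rw [h3] at hE
    exact hE

end

theorem sdc {f : PowerSeries ℚ} (h : GCond f) : Pool.Agent.Y113.SDc f := by
  obtain ⟨C, h1, h2⟩ := h
  have h0 : Pool.Agent.Y113.SDp C f := ⟨h1, h2⟩
  obtain ⟨e, he⟩ := exists_nat_ge C
  refine ⟨e, h0.mono (he.trans ?_)⟩
  exact_mod_cast (Nat.lt_two_pow_self (n := e)).le

/-- the families satisfy the hypotheses of the general theorems -/
theorem nrh {n : ℕ} {N : Matrix (Fin n) (Fin n) ℤ} {H : Matrix (Fin n) (Fin n) (PowerSeries ℚ)} (hG : GFamily N H) :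
    Pool.Agent.Y916.Af.NRh (Pool.Agent.NH25.AP.hT H) := by
  obtain ⟨T, A, hT, hode⟩ := hG.ode
  obtain ⟨W, hW1, hW2⟩ := hG.inv
  have hN0 : ((N.map (Int.cast : ℤ → ℚ))ᵀ) ^ n = 0 := by
    have h1 := map_pow (RingHom.mapMatrix (m := Fin n) (Int.castRingHom ℚ)) N n
    rw [hG.nil, map_zero] at h1
    rw [← Matrix.transpose_pow]
    have h2 : (N.map (Int.cast : ℤ → ℚ)) ^ n = 0 := h1.symm
    rw [h2, Matrix.transpose_zero]
  have hf := Pool.Agent.Y120.J.A.gfs_gen (H := Hᵀ) (W := Wᵀ) (N := (N.map (Int.cast : ℤ → ℚ))ᵀ) (Nz := fun i j => N j i)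
    (T₁ := T) (A := fun i j => A j i) hN0 (fun i j => rfl) hT (by
      rw [← Matrix.transpose_mul, mul_eq_one_comm.1 hW1, Matrix.transpose_one])
    (fun i j => by
      rw [Matrix.transpose_apply, hG.one]
      simp only [eq_comm])
    (fun i j => by
      have h1 := hode j i
      have h2 : ∑ l, C (N j l : ℚ) * H l i = ∑ l, Hᵀ i l * C ((N.map (Int.cast : ℤ → ℚ))ᵀ l j) := by
        refine Finset.sum_congr rfl fun l _ => ?_
        rw [mul_comm]
        rfl
      have h3 : ∑ l, H j l * toQ (A l i) = ∑ l, Pool.Agent.Y113.ps (A l i) * Hᵀ l j := by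
        refine Finset.sum_congr rfl fun l _ => ?_
        rw [mul_comm]
        rfl
      rw [h2, h3] at h1
      exact h1)
    (fun i j => sdc (hG.gfun j i)) (fun i j => sdc (hW2 j i))
  exact Pool.Agent.Y916.Af.nrh_of_gfs hf

/-- `ξ` is a root of a nonzero integral polynomial of degree at most `m` with coefficients of size at most `|ξ|^A` -/
def Height (m A : ℕ) (ξ : ℂ) : Prop :=
  ∃ p : Polynomial ℤ, p ≠ 0 ∧ p.natDegree ≤ m ∧ (∀ j, |(p.coeff j : ℝ)| ≤ ‖ξ‖ ^ A) ∧ Polynomial.aeval ξ p = 0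

/-- the matrix of the values at `(Θ, w)` of a matrix of polynomials over `ℚ` -/
noncomputable def valueAt {p q l : ℕ} (o : Matrix (Fin l) (Fin l) (MvPolynomial (Fin p ⊕ Fin q) ℚ)) (Θ : Fin p → ℂ)
    (w : Fin q → ℂ) : Matrix (Fin l) (Fin l) ℂ := o.map (MvPolynomial.aeval (Sum.elim Θ w))

/-- a common bound for the coefficients -/
theorem exists_bound {s : ℕ} {n : Fin s → ℕ} {N : ∀ i, Matrix (Fin (n i)) (Fin (n i)) ℤ}
    {H : ∀ i, Matrix (Fin (n i)) (Fin (n i)) (PowerSeries ℚ)} (hg : ∀ i a b, GCond (H i a b)) :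
    ∃ C₁ : ℝ, 0 ≤ C₁ ∧ ∀ i a b l, |((coeff l (H i a b) : ℚ) : ℝ)| ≤ C₁ ^ (l + 1) := by
  have _ := N
  choose Ci hCi using fun i a b => hg i a b
  refine ⟨∑ i, ∑ a, ∑ b, |Ci i a b|, by positivity, fun i a b l => ?_⟩
  refine ((hCi i a b).1 l).trans ?_
  refine (le_abs_self _).trans ?_
  rw [abs_pow]
  refine pow_le_pow_left₀ (abs_nonneg _) ?_ _
  have h1 : |Ci i a b| ≤ ∑ b, |Ci i a b| :=
    Finset.single_le_sum (f := fun b => |Ci i a b|) (fun _ _ => abs_nonneg _) (Finset.mem_univ b)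
  have h2 : ∑ b, |Ci i a b| ≤ ∑ a, ∑ b, |Ci i a b| :=
    Finset.single_le_sum (f := fun a => ∑ b, |Ci i a b|) (fun _ _ => by positivity) (Finset.mem_univ a)
  have h3 : ∑ a, ∑ b, |Ci i a b| ≤ ∑ i, ∑ a, ∑ b, |Ci i a b| :=
    Finset.single_le_sum (f := fun i => ∑ a, ∑ b, |Ci i a b|) (fun _ _ => by positivity) (Finset.mem_univ i)
  exact h1.trans (h2.trans h3)

/-- **The theorem.** -/
theorem result :
    -- (A) almost all algebraic points
    (∀ (k r : ℕ) (n : Fin k → ℕ) (N : ∀ i, Matrix (Fin (n i)) (Fin (n i)) ℤ)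
      (H : ∀ i, Matrix (Fin (n i)) (Fin (n i)) (PowerSeries ℚ)), (∀ i, GFamily (N i) (H i)) →
      ∀ m : Fin k → ℕ, (∀ i, 1 ≤ m i) → ∀ η : ℝ, 0 < η → η ≤ 1 →
      (∃ c₀ : ℝ, 0 < c₀ ∧ ∀ T : ℕ, 1 ≤ T → {β : Fin k → ℂ | ∀ i, House (m i) T (β i)}.Finite ∧
        c₀ * (T : ℝ) ^ (∑ i, m i * (m i + 1) / 2) ≤ (({β : Fin k → ℂ | ∀ i, House (m i) T (β i)}.ncard : ℕ) : ℝ)) ∧
      (∀ D δ : ℕ, ∃ c C : ℝ, 0 < c ∧ 0 ≤ C ∧ ∀ (Ω : ∀ i, Matrix (Fin (n i)) (Fin (n i)) ℂ)
        (C₀ : Matrix (Fin r) (Fin r) ℂ) (T : ℕ), (∀ i, IsUnit (Ω i)) → 1 ≤ T →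
        ∀ a : Fin k → ℕ, (∀ i, 1 ≤ a i ∧ (a i : ℝ) ≤ (T : ℝ) ^ (1 - η)) →
        (({β : Fin k → ℂ | (∀ i, House (m i) T (β i)) ∧ ¬ Good D δ C₀ N H Ω fun i => β i / a i}.ncard : ℕ) : ℝ) ≤
          C * (T : ℝ) ^ (((∑ i, m i * (m i + 1) / 2 : ℕ) : ℝ) - c)) ∧
      (∃ (κ : ℕ → ℕ) (ε : ℕ → ℝ), Tendsto κ atTop atTop ∧ Tendsto ε atTop (nhds 0) ∧
        ∀ (Ω : ∀ i, Matrix (Fin (n i)) (Fin (n i)) ℂ)
        (C₀ : Matrix (Fin r) (Fin r) ℂ) (T : ℕ), (∀ i, IsUnit (Ω i)) → 1 ≤ T →
        ∀ a : Fin k → ℕ, (∀ i, 1 ≤ a i ∧ (a i : ℝ) ≤ (T : ℝ) ^ (1 - η)) →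
        (({β : Fin k → ℂ | (∀ i, House (m i) T (β i)) ∧
          ¬ Good (κ T) (κ T) C₀ N H Ω fun i => β i / a i}.ncard : ℕ) : ℝ) ≤
          ε T * (T : ℝ) ^ (∑ i, m i * (m i + 1) / 2))) ∧
    -- (B) windows around algebraic points
    (∀ (n : ℕ) (N : Matrix (Fin n) (Fin n) ℤ) (H : Matrix (Fin n) (Fin n) (PowerSeries ℚ)), GFamily N H →
      ∃ G₀ : ℕ, 1 ≤ G₀ ∧ ∀ G : ℕ, G₀ ≤ G → ∀ (p : ℕ) (Θ : Fin p → ℂ) (q k r m D δ A : ℕ)
        (o : Matrix (Fin n) (Fin n) (MvPolynomial (Fin p ⊕ Fin q) ℚ))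
        (c : Matrix (Fin r) (Fin r) (MvPolynomial (Fin p ⊕ Fin q) ℚ)), ∃ E : ℕ, ∀ (L : ℕ) (ξ : ℂ),
        ((L : ℝ) + 2) ^ E ≤ ‖ξ‖ → Height m A ξ → ∀ w : Fin q → ℂ, IsUnit (valueAt o Θ w) → ∃ S : Finset ℕ,
        (S.card : Cardinal) ≤
          Algebra.trdeg ℚ (IntermediateField.adjoin ℚ (insert (2 * Real.pi * Complex.I) (Set.range Θ))) + q + 1 ∧
        ∀ u : Fin k → ℕ, Function.Injective u → (∀ j, 1 ≤ u j ∧ u j ≤ L ∧ u j ∉ S) →
          Good D δ (valueAt c Θ w) (fun _ => N) (fun _ => H) (fun _ => valueAt o Θ w)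
            (fun j => ξ - ((G * u j : ℕ) : ℂ))) := by
  classical
  refine ⟨?_, ?_⟩
  · intro k r n N H hG m hm η hη hη1
    have hfin : ∀ T : ℕ, {β : Fin k → ℂ | ∀ i, House (m i) T (β i)}.Finite := by
      intro T
      exact Set.Finite.pi' fun i => Pool.Agent.Y916.Sl.sint_fin (m i) T
    have hexp : (∑ i, m i * (m i + 1) / 2 : ℕ) = ∑ i, Pool.Agent.Y916.Sl.Mm (m i) :=
      Finset.sum_congr rfl fun i _ => (Pool.Agent.Y916.Sl.Mm_eq (m i)).symm
    choose W hHW hW using fun i => (hG i).inv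
    obtain ⟨C₁, hC₁, hh₁⟩ := exists_bound (N := N) (H := H) fun i a b => (hG i).gfun a b
    obtain ⟨C₂, hC₂, hh₂⟩ := exists_bound (N := N) (H := W) fun i a b => hW i a b
    obtain ⟨C, hC, hCH, hCW⟩ : ∃ C : ℝ, 0 ≤ C ∧ (∀ i a b l, |((coeff l (H i a b) : ℚ) : ℝ)| ≤ C ^ (l + 1)) ∧
        ∀ i a b l, |((coeff l (W i a b) : ℚ) : ℝ)| ≤ C ^ (l + 1) :=
      ⟨max C₁ C₂, hC₁.trans (le_max_left _ _),
        fun i a b l => (hh₁ i a b l).trans (pow_le_pow_left₀ hC₁ (le_max_left _ _) _),
        fun i a b l => (hh₂ i a b l).trans (pow_le_pow_left₀ hC₂ (le_max_right _ _) _)⟩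
    have hmain : ∀ D δ : ℕ, ∃ c C : ℝ, 0 < c ∧ 0 ≤ C ∧ ∀ (Ω : ∀ i, Matrix (Fin (n i)) (Fin (n i)) ℂ)
        (C₀ : Matrix (Fin r) (Fin r) ℂ) (T : ℕ), (∀ i, IsUnit (Ω i)) → 1 ≤ T →
        ∀ a : Fin k → ℕ, (∀ i, 1 ≤ a i ∧ (a i : ℝ) ≤ (T : ℝ) ^ (1 - η)) →
        (({β : Fin k → ℂ | (∀ i, House (m i) T (β i)) ∧ ¬ Good D δ C₀ N H Ω fun i => β i / a i}.ncard : ℕ) : ℝ) ≤
          C * (T : ℝ) ^ (((∑ i, m i * (m i + 1) / 2 : ℕ) : ℝ) - c) := by
      intro D δ
      obtain ⟨c, C', hc, hC', hA⟩ := Pool.Agent.NH25.BD.cntR D δ r (fun i => (hG i).nil) (fun i => nrh (hG i)) hC hCH m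
        hη hη1
      refine ⟨c, C', hc, hC', fun Ω C₀ T hΩ hT a ha => ?_⟩
      obtain ⟨S, hS, hA'⟩ := hA Ω C₀ T hT a ha hΩ
      rw [hexp]
      refine le_trans ?_ hS
      have hsub : {β : Fin k → ℂ | (∀ i, House (m i) T (β i)) ∧ ¬ Good D δ C₀ N H Ω fun i => β i / a i} ⊆
          (S : Set (Fin k → ℂ)) := by
        rintro β ⟨hβ, hbad⟩
        by_contra hβS
        apply hbad
        obtain ⟨h1, h2⟩ := hA' β (fun i => Pool.Agent.Y916.Sl.SInt.aint (hβ i)) (fun h => hβS (Finset.mem_coe.2 h))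
        refine good_of (fun i => ?_) (fun i l => ?_) h2
        · have h3 : IsAlgebraic ℚ (β i) := by
            have h4 : IsIntegral ℚ (β i) := (hβ i).1.tower_top
            exact h4.isAlgebraic
          exact h3.mul ((isAlgebraic_natCast (a i)).inv)
        · exact Pool.Agent.NH25.BD.pC_unit (hG i).nil (hHW i) hC (hCH i) (hCW i) (hΩ i) (h1 i) l
      have h5 := Set.ncard_le_ncard hsub (Finset.finite_toSet _)
      rw [Set.ncard_coe_finset] at h5
      exact_mod_cast h5
    refine ⟨?_, hmain, ?_⟩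
    · choose c₁ hc₁ hmany using fun i => Pool.Agent.Y916.Sl.many (m i) (hm i)
      refine ⟨∏ i, c₁ i, Finset.prod_pos fun i _ => hc₁ i, fun T hT => ⟨hfin T, ?_⟩⟩
      have h1 : ({β : Fin k → ℂ | ∀ i, House (m i) T (β i)}.ncard : ℝ) = ∏ i, ({ξ : ℂ | House (m i) T ξ}.ncard : ℝ) := by
        have h2 : {β : Fin k → ℂ | ∀ i, House (m i) T (β i)} = Set.univ.pi fun i => {ξ : ℂ | House (m i) T ξ} := by
          ext β
          simp
        have hf : ∀ i, {ξ : ℂ | House (m i) T ξ}.Finite := fun i => Pool.Agent.Y916.Sl.sint_fin (m i) T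
        have h3 : (Set.univ.pi fun i => {ξ : ℂ | House (m i) T ξ}) =
            ((Fintype.piFinset fun i => (hf i).toFinset : Finset (Fin k → ℂ)) : Set (Fin k → ℂ)) := by
          ext β
          simp
        rw [h2, h3, Set.ncard_coe_finset, Fintype.card_piFinset]
        push_cast
        refine Finset.prod_congr rfl fun i _ => ?_
        rw [Set.ncard_eq_toFinset_card _ (hf i)]
      rw [h1, hexp, ← Finset.prod_pow_eq_pow_sum, ← Finset.prod_mul_distrib]
      refine Finset.prod_le_prod (fun i _ => ?_) fun i _ => hmany i T hT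
      have := hc₁ i
      positivity
    · choose c C' hc hC' hcount using hmain
      obtain ⟨κ, hκ, hε⟩ := Pool.Agent.Y123.GN.diag_seq (fun D T => C' D D * (1 / (T : ℝ) ^ (c D D))) (by
        intro D
        have h2 : Tendsto (fun N : ℕ => (1 : ℝ) / (N : ℝ) ^ (c D D)) atTop (nhds 0) := by
          have h3 := (tendsto_rpow_atTop (hc D D)).comp tendsto_natCast_atTop_atTop
          have h4 := h3.inv_tendsto_atTop
          refine h4.congr fun N => ?_
          rw [one_div]
          rfl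
        have h5 := h2.const_mul (C' D D)
        rw [mul_zero] at h5
        exact h5)
      refine ⟨κ, _, hκ, hε, ?_⟩
      intro Ω C₀ T hΩ hT a ha
      refine (hcount (κ T) (κ T) Ω C₀ T hΩ hT a ha).trans (le_of_eq ?_)
      have hT0 : (0 : ℝ) < T := by exact_mod_cast hT
      rw [Real.rpow_sub hT0, Real.rpow_natCast]
      ring
  · intro n N H hG
    obtain ⟨W, hHW, hW⟩ := hG.inv
    obtain ⟨C₁, hC₁, hh₁⟩ := exists_bound (s := 2) (n := fun _ => n) (N := fun _ => N) (H := ![H, W]) (by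
      intro i a b
      fin_cases i
      · exact hG.gfun a b
      · exact hW a b)
    have hh : ∀ a b l, |((coeff l (H a b) : ℚ) : ℝ)| ≤ C₁ ^ (l + 1) := fun a b l => hh₁ 0 a b l
    have hhW : ∀ a b l, |((coeff l (W a b) : ℚ) : ℝ)| ≤ C₁ ^ (l + 1) := fun a b l => hh₁ 1 a b l
    obtain ⟨G₀, hG₀, hwin⟩ := Pool.Agent.NH25.BD.winR hG.nil (nrh hG) hC₁ hh
    refine ⟨G₀, hG₀, fun G hGG p Θ q k r m D δ A o c => ?_⟩
    obtain ⟨E, hE⟩ := hwin G hGG p Θ q k r m D δ A o c
    refine ⟨E, fun L ξ hξ hHt w hΩ => ?_⟩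
    obtain ⟨S, hS, h1⟩ := hE L ξ hξ hHt w
    have hξa : IsAlgebraic ℚ ξ := by
      obtain ⟨p, hp0, -, -, hp⟩ := hHt
      have h2 : IsAlgebraic ℤ ξ := ⟨p, hp0, hp⟩
      exact h2.extendScalars (RingHom.injective_int _)
    refine ⟨S, hS, fun u hu hub => ?_⟩
    obtain ⟨h2, h3⟩ := h1 u hu hub
    refine good_of (fun j => ?_) (fun j l => ?_) fun ℓ hℓ => h3 ℓ hℓ _ _ rfl rfl hΩ
    · exact hξa.sub (isAlgebraic_natCast _)
    · exact Pool.Agent.NH25.BD.pC_unit hG.nil hHW hC₁ hh hhW hΩ (h2 j) l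

end Pool.Agent.Results.MP_5591bc_ag.BoundedDegreeAlgebraicPoints
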