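import Pool.Agent.NH26.PM.Main

namespace Pool.Agent.Results.MP_5591bc_ag.DisconnectedMonodromy

open Pool.Agent.NH26.PM

/-- Let `Y ⟶ S` be a family over an open subset `S` of the multiplicative group, with
multivalued period matrix in some degree `j` of size `m ≥ 1` and graph `G`, and let
`X = Y ×_S S' ⟶ S`, where `S' ⟶ S` is the double cover `x ^ 2 = s`. At every algebraic point
`s` the closure over the algebraic numbers of each value `P(s)` of the period matrix of `X ⟶ S` is
strictly contained in the fibre at `s` of the closure of the graph. (For `Y = S`, `j = 0`, that is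
`m` a one-point type and `G = {(s, 1)}`, this is the family `𝔾_m ⟶ 𝔾_m`, `x ↦ x ^ 2`.) -/
theorem result {m : Type} [Fintype m] [DecidableEq m] [Nonempty m]
    (G : Set (ℂ × Matrix m m ℂ)) (hG : ∀ p ∈ G, p.1 ≠ 0 ∧ p.2.det ≠ 0)
    (s : ℂ) (hs : IsAlgebraic ℚ s) (PY : Matrix m m ℂ) (h : (s, PY) ∈ G)
    (e : Fin 2 ≃ {x : ℂ // x ^ 2 = s}) :
    closureGL algNum {perX PY e} ⊂ fibreAt (closureRel algNum (graphX G)) s :=
  closure_ssubset algNum hG h e (root_mem_algNum hs e 0)

end Pool.Agent.Results.MP_5591bc_ag.DisconnectedMonodromy
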