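import Pool.Agent.NH25.DL.Nrm
import Pool.Agent.NH25.CV.All
import Pool.Agent.Y916.Sl.Many
import Pool.Agent.Y123.GN.E7

/-!
# Periods of algebraic fibres: relations of bounded degree over the residue field

Let `X_l → U_l`, `1 ≤ l ≤ p`, be families of smooth projective varieties over curves over a number field, `z_l` a coordinate
at a point of the smooth compactification of `U_l`, at which the family may degenerate, with unipotent local monodromy
`exp(2 π i N_l)` (the general case reduces to this one by a base change `z = w ^ k`), and `S = U_1 × … × U_p`. Near this point the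
multivalued period matrix of `X_l` is `C_l exp(t_l N_l) H_l(z_l)`, where `t_l` is a value of `log z_l`, `C_l` a constant matrix and
`exp(t N_l) H_l` a fundamental matrix of the Picard-Fuchs system over a number field, normalised by `H_l(0) = 1`; the
entries of `H_l` and `H_l⁻¹` are G-functions (André). Hence all branches of all the periods, together with any constants, are
functions as in `LogRepresented`: polynomials in the logarithm `t_l` whose coefficients are linear combinations with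
complex coefficients of `1` and the entries of `H_l(z_l)`, for some `l`. The definition makes no reference to geometry.

For the multivalued function `P` let `B_P` be the Zariski closure over `ℚ̄` of its graph, and `B_{P, s}` (`closureFibre`) the
fibre over `s`. For a number field `K₀` and an algebraic point `s` the residue field is `κ(s) = K₀(s_1, …, s_p)`. The degree
`δ` version of the question (`DegreeStatement`) at `s`: for every branch of `P` at `s`, every polynomial `F` with
coefficients in `κ(s)` and of total degree at most `δ` which vanishes at `P(s)`, that is, on the `ℚ̄`-Zariski closure of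
`P(s)`, vanishes on `B_{P, s}`; moreover `F` is the value at `s` of a polynomial over `ℚ̄[z_1, …, z_p]` of total degree at most
`δ` which vanishes on `B_P`.

**Theorem.** Let `m_l ≥ 1` and `0 < η ≤ 1`. For all `T ≥ 1` and all integers `a_l` in `[1, T ^ (1 - η)]` we consider the points
`s = (a_1 / β_1, …, a_p / β_p)` near the degenerate fibre, where `β_l` is an algebraic integer of degree at most `m_l` all of
whose conjugates are bounded by `T`. The number of the tuples `β` is at least `c₀ T ^ M`, with `M = ∑ m_l (m_l + 1) / 2`. For all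
`δ` and `D` there are `c > 0` and `C` such that for all number fields `K₀` of degree at most `D` the degree `δ` statement holds
for all but `C T ^ (M - c)` of the tuples. Moreover there are functions `d(T) → ∞` and `ε(T) → 0` such that for all number
fields `K₀` of degree at most `d(T)` the degree `d(T)` statement holds for all but `ε(T) T ^ M` of the tuples.

There is no hypothesis on the monodromy group or on the Hodge locus.

**All families of curves.** Let `F_l(z, x, y)` be polynomials over `ℚ̄`, monic in `y`, and `Q_l(z, x) ≠ 0` polynomials over `ℚ̄` such that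
`F_l(z, x, Y)` has no multiple root when `Q_l(z, x) ≠ 0`: families of curves `F_l(z, x, y) = 0, Q_l(z, x) ≠ 0` (`CurveFamily`); every
family of smooth curves over a curve is of this form over an open subset of the base. There is a finite set `E` such that near
every centre `c` with algebraic coordinates outside `E` the same conclusion holds for the periods
`∮ P(z, x, y) dx / Q(z, x) ^ k` over closed paths which are transported to the neighbouring fibres (`TransportedLoop`; every closed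
path on the curve `U_c` which avoids the zeros of `Q(c, x)` and for which `x(t)` is continuously differentiable has a unique
transport for small `|z - c|`), together with arbitrary constants. The functions are written in the coordinate `z - c`. Here
nothing about G-functions is assumed: the theorem of André for `H^1` of families of curves is proved
(`Pool/Agent/NH25/CV`, with many coauthors).

What was known: the points with the degree `δ` property are dense in the analytic topology. `AllFamiliesOfCurves` treats all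
number fields `K₀` of bounded degree at once, and the irreducible components of the fibre.

Proof (`Pool/Agent/NH25/DL`). Let `w_e` be a basis of the space over `ℚ(z)` which is spanned by the monomials of degree at
most `δ` in the entries of `H`. If many translates `ξ + g` have a relation `∑ c_{e, i} w_e(1 / (ξ + g)) log(ξ + g) ^ i = 0` with
coefficients in a space `V` over `ℚ` of bounded dimension, then, as `log(ξ + g) = log ξ + log(1 + g / ξ)` modulo `2 π i`, the
products of the values of `w_e log(1 + g / ξ) ^ i` at these points generate a space over `ℚ(ξ)` of small dimension; this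
contradicts a lower bound for the dimension by a Siegel lemma argument for G-functions of `1 / ξ`, uniform in the translates.
As `V` we take `κ(s)` times the space of the coefficients in the period relations; the field `κ(s)` does not change under
translations. A relation over `κ(s)` of degree `δ` between the periods thus gives linear relations for its coefficients over
`ℚ̄`, which are specialisations of the linear relations over `ℚ̄(z)` which define the functional relations; outside a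
hypersurface the solutions of the specialised linear system are the specialisations of the solutions.
-/

set_option autoImplicit false

open PowerSeries Filter

namespace Pool.Agent.Results.MP_5591bc_ag.PointsOverResidueField

section systems

variable {L : Type} [Field L]

/-- The arithmetic conditions in the definition of a G-function over the number field `L`: geometric growth of all
conjugates of the coefficients and of their common denominators. -/
def GFunction (g : PowerSeries L) : Prop := ∃ A : ℝ, (∀ (φ : L →+* ℂ) (m : ℕ), ‖φ (coeff m g)‖ ≤ A ^ (m + 1)) ∧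
  ∀ m, ∃ d : ℕ, 0 < d ∧ (d : ℝ) ≤ A ^ (m + 1) ∧ ∀ j ≤ m, IsIntegral ℤ ((d : L) * coeff j g)

/-- The matrix `Y = z ^ N H(z)` with `N` nilpotent and `H(0) = 1` is a fundamental matrix (rows: solutions) of a system
`f z Y' = Y A` over `L(z)` with `f(0) ≠ 0`, and the entries of `H` and of the inverse matrix are G-functions. -/
structure UnipotentMatrix {n : ℕ} (N : Matrix (Fin n) (Fin n) ℤ) (H : Matrix (Fin n) (Fin n) (PowerSeries L)) : Prop where
  /-- `N` is nilpotent -/
  nilpotent : N ^ n = 0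
  /-- the normalisation -/
  one : ∀ i j, coeff 0 (H i j) = if i = j then 1 else 0
  /-- the system: `f (z H' + N H) = H A` with `f(0) ≠ 0` -/
  ode : ∃ (f : Polynomial L) (A : Matrix (Fin n) (Fin n) (Polynomial L)), f.coeff 0 ≠ 0 ∧
    ∀ i j, (f : PowerSeries L) * (X * PowerSeries.derivative L (H i j) + ∑ k, C (N i k : L) * H k j) =
      ∑ k, H i k * (A k j : PowerSeries L)
  /-- the entries are G-functions -/
  gfun : ∀ i j, GFunction (H i j)
  /-- the entries of the inverse matrix are G-functions -/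
  inv : ∃ W : Matrix (Fin n) (Fin n) (PowerSeries L), H * W = 1 ∧ ∀ i j, GFunction (W i j)

/-- the value of a power series -/
noncomputable def value [Algebra L ℂ] (g : PowerSeries L) (z : ℂ) : ℂ := ∑' m : ℕ, algebraMap L ℂ (coeff m g) * z ^ m

end systems

/-- `P z t` are the values of multivalued functions at the point `z` of the punctured polydisc of radius `ρ`, for the values
`t` of the logarithms of the coordinates of `z`. There are a number field `L` in `ℂ` and matrices `H_1, …, H_p` over `L` as in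
`UnipotentMatrix` such that every function `P i` is for some `l` a polynomial in the logarithm `t_l` whose coefficients are
linear combinations, with complex coefficients, of `1` and the entries of `H_l(z_l)`. -/
def LogRepresented {p : ℕ} {ι : Type} (P : (Fin p → ℂ) → (Fin p → ℂ) → ι → ℂ) (ρ : ℝ) : Prop :=
  ∃ (L : Type) (_ : Field L) (_ : NumberField L) (_ : Algebra L ℂ) (n : Fin p → ℕ)
    (N : ∀ l, Matrix (Fin (n l)) (Fin (n l)) ℤ) (H : ∀ l, Matrix (Fin (n l)) (Fin (n l)) (PowerSeries L)) (e : ℕ),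
    (∀ l, UnipotentMatrix (N l) (H l)) ∧
    ∀ i, ∃ (l : Fin p) (c₀ : Fin (e + 1) → ℂ) (c : Fin (e + 1) → Matrix (Fin (n l)) (Fin (n l)) ℂ),
      ∀ z t : Fin p → ℂ, (∀ l, ‖z l‖ < ρ) → (∀ l, Complex.exp (t l) = z l) →
        P z t i = ∑ j, (c₀ j + ∑ a, ∑ b, c j a b * value (H l a b) (z l)) * t l ^ (j : ℕ)

section statement

/-- The field of all algebraic numbers. -/
noncomputable abbrev QBar : IntermediateField ℚ ℂ := algebraicClosure ℚ ℂ

variable {p : ℕ} {ι : Type}

/-- a polynomial over `ℚ̄[z_1, …, z_p]` at a point `z` -/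
noncomputable def special (G : MvPolynomial ι (MvPolynomial (Fin p) QBar)) (z : Fin p → ℂ) : MvPolynomial ι ℂ :=
  G.map (MvPolynomial.aeval z : MvPolynomial (Fin p) QBar →ₐ[QBar] ℂ).toRingHom

/-- `G(z, P(z)) = 0` for all `z` in the punctured polydisc of radius `r` and all branches of `P` at `z` -/
def Holds (P : (Fin p → ℂ) → (Fin p → ℂ) → ι → ℂ) (r : ℝ) (G : MvPolynomial ι (MvPolynomial (Fin p) QBar)) : Prop :=
  ∀ z t : Fin p → ℂ, (∀ l, ‖z l‖ < r) → (∀ l, Complex.exp (t l) = z l) → MvPolynomial.aeval (P z t) (special G z) = 0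

/-- The fibre over `s` of the Zariski closure over the algebraic numbers of the graph of the multivalued function `P` over
the punctured polydisc of radius `r`. -/
def closureFibre (P : (Fin p → ℂ) → (Fin p → ℂ) → ι → ℂ) (r : ℝ) (s : Fin p → ℂ) : Set (ι → ℂ) :=
  {y | ∀ G : MvPolynomial ι (MvPolynomial (Fin p) QBar), Holds P r G → MvPolynomial.aeval y (special G s) = 0}

/-- The residue field `κ(s) = K₀(s_1, …, s_p)`. -/
noncomputable def residueField (K₀ : IntermediateField ℚ ℂ) (s : Fin p → ℂ) : IntermediateField ℚ ℂ :=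
  K₀ ⊔ IntermediateField.adjoin ℚ (Set.range s)

/-- The degree `δ` statement at `s`, for all branches `P(s)`: every polynomial `F` of total degree at most `δ` with
coefficients in `κ(s)` which vanishes at `P(s)` is the value at `s` of a relation over `ℚ̄[z]`, of total degree at most `δ`,
which holds on the graph of `P`; and it vanishes on the fibre over `s` of the Zariski closure of this graph. -/
def DegreeStatement (P : (Fin p → ℂ) → (Fin p → ℂ) → ι → ℂ) (r : ℝ) (K₀ : IntermediateField ℚ ℂ) (δ : ℕ)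
    (s : Fin p → ℂ) : Prop :=
  ∀ t : Fin p → ℂ, (∀ l, Complex.exp (t l) = s l) →
  ∀ F : MvPolynomial ι (residueField K₀ s), F.totalDegree ≤ δ → MvPolynomial.aeval (P s t) F = 0 →
    (∃ G : MvPolynomial ι (MvPolynomial (Fin p) QBar), G.totalDegree ≤ δ ∧ Holds P r G ∧
      special G s = F.map (algebraMap (residueField K₀ s) ℂ)) ∧
    ∀ y ∈ closureFibre P r s, MvPolynomial.aeval y F = 0

end statement

/-- algebraic integers of degree at most `m` all of whose conjugates have absolute value at most `T` -/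
def House (m T : ℕ) (ξ : ℂ) : Prop :=
  IsIntegral ℤ ξ ∧ (minpoly ℚ ξ).natDegree ≤ m ∧ ∀ z : ℂ, Polynomial.aeval z (minpoly ℚ ξ) = 0 → ‖z‖ ≤ T

/-- the tuples `β` -/
def Tuples {p : ℕ} (m : Fin p → ℕ) (T : ℕ) : Set (Fin p → ℂ) := {β | ∀ l, House (m l) T (β l)}

/-- the exponent `∑ m_l (m_l + 1) / 2` -/
def size {p : ℕ} (m : Fin p → ℕ) : ℕ := ∑ l, m l * (m l + 1) / 2

/-- The tuples `β` for which the point `s = (a_1 / β_1, …, a_p / β_p)` is not in the polydisc of radius `r` or the degree `δ`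
statement at `s` fails. -/
def Exceptional {p : ℕ} {ι : Type} (P : (Fin p → ℂ) → (Fin p → ℂ) → ι → ℂ) (r : ℝ) (K₀ : IntermediateField ℚ ℂ) (δ : ℕ)
    (m : Fin p → ℕ) (T : ℕ) (a : Fin p → ℕ) : Set (Fin p → ℂ) :=
  {β | β ∈ Tuples m T ∧ ¬ ((∀ l, ‖(a l : ℂ) / β l‖ < r) ∧ DegreeStatement P r K₀ δ fun l => (a l : ℂ) / β l)}


/-- The conclusion of the theorem, for a family of multivalued functions `P` on the punctured polydisc of radius `ρ`. -/
def AlmostAll {p : ℕ} {ι : Type} (P : (Fin p → ℂ) → (Fin p → ℂ) → ι → ℂ) (ρ : ℝ) : Prop :=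
  ∃ r : ℝ, 0 < r ∧ r ≤ ρ ∧ ∀ (m : Fin p → ℕ) (η : ℝ), (∀ l, 1 ≤ m l) → 0 < η → η ≤ 1 →
    (∀ δ D : ℕ, ∃ c C : ℝ, 0 < c ∧ ∀ K₀ : IntermediateField ℚ ℂ, FiniteDimensional ℚ K₀ → Module.finrank ℚ K₀ ≤ D →
      ∀ T : ℕ, 1 ≤ T → ∀ a : Fin p → ℕ, (∀ l, 1 ≤ a l ∧ (a l : ℝ) ≤ (T : ℝ) ^ (1 - η)) →
      ((Exceptional P r K₀ δ m T a).ncard : ℝ) ≤ C * (T : ℝ) ^ ((size m : ℝ) - c)) ∧
    (∃ (d : ℕ → ℕ) (ε : ℕ → ℝ), Tendsto d atTop atTop ∧ Tendsto ε atTop (nhds 0) ∧
      ∀ (T : ℕ) (K₀ : IntermediateField ℚ ℂ), 1 ≤ T → FiniteDimensional ℚ K₀ → Module.finrank ℚ K₀ ≤ d T →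
      ∀ a : Fin p → ℕ, (∀ l, 1 ≤ a l ∧ (a l : ℝ) ≤ (T : ℝ) ^ (1 - η)) →
      ((Exceptional P r K₀ (d T) m T a).ncard : ℝ) ≤ ε T * (T : ℝ) ^ size m)

section curves

/-- The polynomial `F(z, x, Y)` in `Y`, for `F` in `ℚ̄[z][x][Y]`. -/
noncomputable def fibre (F : Polynomial (Polynomial (Polynomial QBar))) (z x : ℂ) : Polynomial ℂ :=
  F.map ((Polynomial.evalRingHom x).comp (Polynomial.mapRingHom (Polynomial.eval₂RingHom (algebraMap QBar ℂ) z)))

/-- The value `Q(z, x)`, for `Q` in `ℚ̄[z][x]`. -/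
noncomputable def point (Q : Polynomial (Polynomial QBar)) (z x : ℂ) : ℂ :=
  (Q.map (Polynomial.eval₂RingHom (algebraMap QBar ℂ) z)).eval x

/-- A family of curves `U_z : F(z, x, y) = 0, Q(z, x) ≠ 0` over the algebraic numbers, unramified over the `x`-line without the
zeros of `Q(z, x)`, with `r` forms `P_i(z, x, y) dx / Q(z, x) ^ k_i`. -/
structure CurveFamily where
  F : Polynomial (Polynomial (Polynomial QBar))
  Q : Polynomial (Polynomial QBar)
  /-- `F` is monic in `y` -/
  monic : F.Monic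
  degree_pos : 0 < F.natDegree
  ne_zero : Q ≠ 0
  /-- if `Q(z, x) ≠ 0` then `F(z, x, Y)` has no multiple root -/
  unramified : ∀ z x : ℂ, point Q z x ≠ 0 → (fibre F z x).Separable
  /-- the number of forms -/
  r : ℕ
  P : Fin r → Polynomial (Polynomial (Polynomial QBar))
  k : Fin r → ℕ

/-- A closed path on the curve `U_c` and its transport `(x(t), y(z, t))` to the curves `U_z`, `|z - c| < ρ`. -/
structure TransportedLoop (X : CurveFamily) (c : ℂ) (ρ : ℝ) where
  x : ℝ → ℂ
  y : ℂ → ℝ → ℂ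
  smooth : ContDiff ℝ 1 x
  continuous : ContinuousOn (fun v : ℂ × ℝ => y v.1 v.2) (Metric.ball c ρ ×ˢ Set.Icc (0 : ℝ) 1)
  closed_x : x 0 = x 1
  closed_y : ∀ z ∈ Metric.ball c ρ, y z 0 = y z 1
  curve : ∀ z ∈ Metric.ball c ρ, ∀ t ∈ Set.Icc (0 : ℝ) 1, (fibre X.F z (x t)).eval (y z t) = 0
  away : ∀ z ∈ Metric.ball c ρ, ∀ t ∈ Set.Icc (0 : ℝ) 1, point X.Q z (x t) ≠ 0

/-- The period of the `i`-th form over the transported loop on `U_z`. -/
noncomputable def period {X : CurveFamily} {c : ℂ} {ρ : ℝ} (γ : TransportedLoop X c ρ) (i : Fin X.r) (z : ℂ) : ℂ :=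
  ∫ t in (0 : ℝ)..1, (fibre (X.P i) z (γ.x t)).eval (γ.y z t) / point X.Q z (γ.x t) ^ X.k i * deriv γ.x t

/-- The periods of `p` families of curves over `σ l` transported loops, as (single-valued) functions of `z - c`, and the constants
`w`. -/
noncomputable def periods {p q : ℕ} (X : Fin p → CurveFamily) (c : Fin p → ℂ) {ρ : ℝ} {σ : Fin p → ℕ}
    (γ : ∀ l, Fin (σ l) → TransportedLoop (X l) (c l) ρ) (w : Fin q → ℂ) (z _t : Fin p → ℂ) :
    (Σ l, Fin (σ l) × Fin (X l).r) ⊕ Fin q → ℂ :=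
  Sum.elim (fun v => period (γ v.1 v.2.1) v.2.2 (c v.1 + z v.1)) w

end curves

section proof

open Pool.Agent.NH25.DL Pool.Agent.Y921.DB Pool.Agent.Y916

variable {p : ℕ} {ι : Type}

theorem holds_of {P : (Fin p → ℂ) → (Fin p → ℂ) → ι → ℂ} {r : ℝ} {G : MvPolynomial ι (MvPolynomial (Fin p) QBar)}
    (h : ∀ z t : Fin p → ℂ, (∀ l, ‖z l‖ < r) → (∀ l, Complex.exp (t l) = z l) →
      G.eval₂ (MvPolynomial.aeval z : MvPolynomial (Fin p) QBar →ₐ[QBar] ℂ).toRingHom (P z t) = 0) : Holds P r G := by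
  intro z t hz ht
  unfold special
  rw [MvPolynomial.aeval_def, MvPolynomial.eval₂_map]
  exact h z t hz ht

theorem degree_of_spec {P P' : (Fin p → ℂ) → (Fin p → ℂ) → ι → ℂ} {r : ℝ} {K₀ : IntermediateField ℚ ℂ} {δ : ℕ}
    {s : Fin p → ℂ} (hP : ∀ z t : Fin p → ℂ, (∀ l, ‖z l‖ < r) → (∀ l, Complex.exp (t l) = z l) → P z t = P' z (-t))
    (h : Gd K₀ P' r δ s) : DegreeStatement P r K₀ δ s := by
  intro t ht F hF h0
  have hmap : ∀ y : ι → ℂ, MvPolynomial.aeval y (F.map (algebraMap (residueField K₀ s) ℂ)) = MvPolynomial.aeval y F := by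
    intro y
    rw [MvPolynomial.aeval_map_algebraMap]
  obtain ⟨G, h1, h2, h3⟩ := h.2 (-t) (fun l => by rw [Pi.neg_apply, Complex.exp_neg, ht l, one_div])
    (F.map (algebraMap (residueField K₀ s) ℂ))
    ((Finset.sup_mono (MvPolynomial.support_map_subset _ _)).trans hF) (fun e => by
      rw [MvPolynomial.coeff_map]
      exact (F.coeff e).2) (by rw [hmap, ← hP s t h.1 ht]; exact h0)
  have h4 : Holds P r G := holds_of fun z t' hz ht' => by
    rw [hP z t' hz ht']
    exact h2 z hz (-t')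
  refine ⟨⟨G, h1, h4, h3⟩, fun y hy => ?_⟩
  rw [← hmap, ← h3]
  exact hy G h4

/-- the data of a representation -/
theorem rep_of {P : (Fin p → ℂ) → (Fin p → ℂ) → ι → ℂ} {ρ : ℝ} (h : LogRepresented P ρ) :
    ∃ (P' : (Fin p → ℂ) → (Fin p → ℂ) → ι → ℂ) (L : Type) (_ : Field L) (_ : NumberField L) (_ : Algebra L ℂ)
      (n : Fin p → ℕ) (N : ∀ l, Matrix (Fin (n l)) (Fin (n l)) ℤ)
      (H : ∀ l, Matrix (Fin (n l)) (Fin (n l)) (PowerSeries L)), (∀ l, LFam (N l) (H l)) ∧ Nonempty (RepL P' ρ H) ∧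
      ∀ z t : Fin p → ℂ, (∀ l, ‖z l‖ < ρ) → (∀ l, Complex.exp (t l) = z l) → P z t = P' z (-t) := by
  obtain ⟨L, i1, i2, i3, n, N, H, e, hH, hP⟩ := h
  choose co c₀ c hc using hP
  refine ⟨fun z t i => ∑ j : Fin (e + 1), ((-1) ^ (j : ℕ) * c₀ i j + ∑ a, ∑ b, ((-1) ^ (j : ℕ) * c i j a b) *
    value (H (co i) a b) (z (co i))) * t (co i) ^ (j : ℕ), L, i1, i2, i3, n, N, H, fun l => ?_, ⟨⟨e, co,
      fun i j => (-1) ^ (j : ℕ) * c₀ i j, fun i j => Matrix.of fun a b => (-1) ^ (j : ℕ) * c i j a b,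
      fun z hz t i => rfl⟩⟩, fun z t hz ht => ?_⟩
  · obtain ⟨f, A, hf, hode⟩ := (hH l).ode
    obtain ⟨W, hW, hWG⟩ := (hH l).inv
    exact ⟨(hH l).nilpotent, (hH l).one, ⟨f, fun i j => A i j, hf, hode⟩, fun i j => (hH l).gfun i j,
      ⟨W, hW, fun i j => hWG i j⟩⟩
  · funext i
    rw [hc i z t hz ht]
    refine Finset.sum_congr rfl fun j _ => ?_
    have h3 : (-t) (co i) ^ (j : ℕ) = (-1) ^ (j : ℕ) * t (co i) ^ (j : ℕ) := by rw [Pi.neg_apply, neg_pow]
    have h1 : ((-1 : ℂ) ^ (j : ℕ)) * (-1) ^ (j : ℕ) = 1 := by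
      rw [← mul_pow]
      simp
    have h2 : (-1) ^ (j : ℕ) * c₀ i j + ∑ a, ∑ b, ((-1) ^ (j : ℕ) * c i j a b) * value (H (co i) a b) (z (co i)) =
        (-1) ^ (j : ℕ) * (c₀ i j + ∑ a, ∑ b, c i j a b * value (H (co i) a b) (z (co i))) := by
      rw [mul_add, Finset.mul_sum]
      congr 1
      refine Finset.sum_congr rfl fun a _ => ?_
      rw [Finset.mul_sum]
      exact Finset.sum_congr rfl fun b _ => by ring
    rw [h2, h3]
    linear_combination (-(c₀ i j + ∑ a, ∑ b, c i j a b * value (H (co i) a b) (z (co i)))) * t (co i) ^ (j : ℕ) * h1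

theorem nf_of {P P' : (Fin p → ℂ) → (Fin p → ℂ) → ι → ℂ} {r ρ : ℝ} (hrr : r ≤ ρ)
    (hP : ∀ z t : Fin p → ℂ, (∀ l, ‖z l‖ < ρ) → (∀ l, Complex.exp (t l) = z l) → P z t = P' z (-t))
    (h : ∀ (δ D : ℕ) (m : Fin p → ℕ) (η : ℝ),
    0 < η → η ≤ 1 → ∃ c C : ℝ, 0 < c ∧ 0 ≤ C ∧
      ∀ K₀ : IntermediateField ℚ ℂ, FiniteDimensional ℚ K₀ → Module.finrank ℚ K₀ ≤ D → ∀ T : ℕ, 1 ≤ T →
      ∀ a : Fin p → ℕ, (∀ i, 1 ≤ a i ∧ (a i : ℝ) ≤ (T : ℝ) ^ (1 - η)) →
      ((Set.ncard {β : Fin p → ℂ | β ∈ Fintype.piFinset (fun l : Fin p => Sl.NF (m l) T) ∧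
        ¬ Gd K₀ P' r δ (fun l => (a l : ℂ) / β l)} : ℕ) : ℝ) ≤ C * (T : ℝ) ^ (((∑ l, Sl.Mm (m l) : ℕ) : ℝ) - c)) :
    ∀ (m : Fin p → ℕ) (η : ℝ), (∀ l, 1 ≤ m l) → 0 < η → η ≤ 1 →
    (∀ δ D : ℕ, ∃ c C : ℝ, 0 < c ∧ ∀ K₀ : IntermediateField ℚ ℂ, FiniteDimensional ℚ K₀ → Module.finrank ℚ K₀ ≤ D →
      ∀ T : ℕ, 1 ≤ T → ∀ a : Fin p → ℕ, (∀ l, 1 ≤ a l ∧ (a l : ℝ) ≤ (T : ℝ) ^ (1 - η)) →
      ((Exceptional P r K₀ δ m T a).ncard : ℝ) ≤ C * (T : ℝ) ^ ((size m : ℝ) - c)) ∧
    (∃ (d : ℕ → ℕ) (ε : ℕ → ℝ), Tendsto d atTop atTop ∧ Tendsto ε atTop (nhds 0) ∧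
      ∀ (T : ℕ) (K₀ : IntermediateField ℚ ℂ), 1 ≤ T → FiniteDimensional ℚ K₀ → Module.finrank ℚ K₀ ≤ d T →
      ∀ a : Fin p → ℕ, (∀ l, 1 ≤ a l ∧ (a l : ℝ) ≤ (T : ℝ) ^ (1 - η)) →
      ((Exceptional P r K₀ (d T) m T a).ncard : ℝ) ≤ ε T * (T : ℝ) ^ size m) := by
  intro m η hm hη hη1
  have hexp : size m = ∑ l, Sl.Mm (m l) := Finset.sum_congr rfl fun l _ => (Sl.Mm_eq (m l)).symm
  have hmain : ∀ δ D : ℕ, ∃ c C : ℝ, 0 < c ∧ ∀ K₀ : IntermediateField ℚ ℂ, FiniteDimensional ℚ K₀ →
      Module.finrank ℚ K₀ ≤ D → ∀ T : ℕ, 1 ≤ T → ∀ a : Fin p → ℕ, (∀ l, 1 ≤ a l ∧ (a l : ℝ) ≤ (T : ℝ) ^ (1 - η)) →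
      ((Exceptional P r K₀ δ m T a).ncard : ℝ) ≤ C * (T : ℝ) ^ ((size m : ℝ) - c) := by
    intro δ D
    obtain ⟨c, C, hc, -, hC⟩ := h δ D m η hη hη1
    refine ⟨c, C, hc, fun K₀ hK₀ hKD T hT a ha => ?_⟩
    have h5 := hC K₀ hK₀ hKD T hT a ha
    rw [← hexp] at h5
    refine le_trans ?_ h5
    refine Nat.cast_le.2 (Set.ncard_le_ncard (fun β hβ => ?_) ((Finset.finite_toSet _).subset fun β hβ => hβ.1))
    obtain ⟨h1, h2⟩ := hβ
    refine ⟨Fintype.mem_piFinset.2 fun l => ?_, fun hh => h2 ⟨hh.1, degree_of_spec (fun z t hz ht =>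
      hP z t (fun l => (hz l).trans_le hrr) ht) hh⟩⟩
    exact Sl.mem_NF.2 (Sl.SInt.aint (h1 l))
  refine ⟨hmain, ?_⟩
  choose c C hc hcount using hmain
  obtain ⟨d, hd, hε⟩ := Pool.Agent.Y123.GN.diag_seq (fun D T => C D D * (1 / (T : ℝ) ^ (c D D))) (by
    intro D
    have h2 : Tendsto (fun N : ℕ => (1 : ℝ) / (N : ℝ) ^ (c D D)) atTop (nhds 0) := by
      have h3 := (tendsto_rpow_atTop (hc D D)).comp tendsto_natCast_atTop_atTop
      have h4 := h3.inv_tendsto_atTop
      refine h4.congr fun N => ?_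
      rw [one_div]
      rfl
    have h5 := h2.const_mul (C D D)
    rw [mul_zero] at h5
    exact h5)
  refine ⟨d, _, hd, hε, ?_⟩
  intro T K₀ hT hK₀ hKD a ha
  refine (hcount (d T) (d T) K₀ hK₀ hKD T hT a ha).trans (le_of_eq ?_)
  have hT0 : (0 : ℝ) < T := by exact_mod_cast hT
  rw [Real.rpow_sub hT0, Real.rpow_natCast]
  ring

theorem almost_of [Finite ι] {P P' : (Fin p → ℂ) → (Fin p → ℂ) → ι → ℂ} {ρ : ℝ} (hρ : 0 < ρ) {L : Type} [Field L]
    [NumberField L] [Algebra L ℂ] {n : Fin p → ℕ} {N : ∀ l, Matrix (Fin (n l)) (Fin (n l)) ℤ}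
    {H : ∀ l, Matrix (Fin (n l)) (Fin (n l)) (PowerSeries L)} (hH : ∀ l, LFam (N l) (H l)) (R : RepL P' ρ H)
    (hP : ∀ z t : Fin p → ℂ, (∀ l, ‖z l‖ < ρ) → (∀ l, Complex.exp (t l) = z l) → P z t = P' z (-t)) :
    AlmostAll P ρ := by
  have := Fintype.ofFinite ι
  obtain ⟨r, hr, hrr, hcount, -⟩ := R.count hρ hH
  refine ⟨r, hr, hrr, nf_of hrr hP fun δ D m η hη hη1 => ?_⟩
  obtain ⟨c, C, hc, hC0, hC⟩ := hcount δ D m η hη hη1
  refine ⟨c, C, hc, hC0, fun K₀ hK₀ hKD T hT a ha => le_trans (le_of_eq ?_) (hC K₀ hK₀ hKD T hT a ha)⟩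
  rw [← Set.ncard_coe_finset, Finset.coe_filter]

end proof

/-- **The theorem.** -/
theorem result :
    -- the number of the tuples
    (∀ (p : ℕ) (m : Fin p → ℕ), (∀ l, 1 ≤ m l) → ∃ c₀ : ℝ, 0 < c₀ ∧ ∀ T : ℕ, 1 ≤ T → (Tuples m T).Finite ∧
      c₀ * (T : ℝ) ^ size m ≤ ((Tuples m T).ncard : ℝ)) ∧
    -- families of functions which are represented by G-functions and logarithms
    (∀ (p : ℕ) (ι : Type) (_ : Finite ι) (P : (Fin p → ℂ) → (Fin p → ℂ) → ι → ℂ) (ρ : ℝ), 0 < ρ → LogRepresented P ρ →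
      AlmostAll P ρ) ∧
    -- the periods of families of curves
    (∀ (p : ℕ) (X : Fin p → CurveFamily), 1 ≤ p → ∃ E : Finset ℂ, ∀ c : Fin p → ℂ,
      (∀ l, IsAlgebraic ℚ (c l) ∧ c l ∉ E) → ∀ (q : ℕ) (ρ : ℝ) (σ : Fin p → ℕ)
      (γ : ∀ l, Fin (σ l) → TransportedLoop (X l) (c l) ρ) (w : Fin q → ℂ), 0 < ρ → AlmostAll (periods X c γ w) ρ) := by
  classical
  refine ⟨?_, ?_, ?_⟩
  · intro p m hm
    have hexp : size m = ∑ l, Pool.Agent.Y916.Sl.Mm (m l) :=
      Finset.sum_congr rfl fun l _ => (Pool.Agent.Y916.Sl.Mm_eq (m l)).symm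
    choose c₁ hc₁ hmany using fun i => Pool.Agent.Y916.Sl.many (m i) (hm i)
    refine ⟨∏ i, c₁ i, Finset.prod_pos fun i _ => hc₁ i,
      fun T hT => ⟨Set.Finite.pi' fun i => Pool.Agent.Y916.Sl.sint_fin (m i) T, ?_⟩⟩
    have h1 : ((Tuples m T).ncard : ℝ) = ∏ i, ({ξ : ℂ | House (m i) T ξ}.ncard : ℝ) := by
      have h2 : Tuples m T = Set.univ.pi fun i => {ξ : ℂ | House (m i) T ξ} := by
        ext β
        simp [Tuples]
      have hf : ∀ i, {ξ : ℂ | House (m i) T ξ}.Finite := fun i => Pool.Agent.Y916.Sl.sint_fin (m i) T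
      have h3 : (Set.univ.pi fun i => {ξ : ℂ | House (m i) T ξ}) =
          ((Fintype.piFinset fun i => (hf i).toFinset : Finset (Fin p → ℂ)) : Set (Fin p → ℂ)) := by
        ext β
        simp
      rw [h2, h3, Set.ncard_coe_finset, Fintype.card_piFinset]
      push_cast
      refine Finset.prod_congr rfl fun i _ => ?_
      rw [Set.ncard_eq_toFinset_card _ (hf i)]
    rw [h1, hexp, ← Finset.prod_pow_eq_pow_sum, ← Finset.prod_mul_distrib]
    refine Finset.prod_le_prod (fun i _ => ?_) fun i _ => hmany i T hT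
    have := hc₁ i
    positivity
  · intro p ι _ P ρ hρ h
    obtain ⟨P', L, i1, i2, i3, n, N, H, hH, ⟨R⟩, hP⟩ := rep_of h
    exact almost_of hρ hH R hP
  · intro p X hp
    obtain ⟨E, hE⟩ := Pool.Agent.NH25.CV.curves_rep (fun l => (X l).F) (fun l => (X l).Q) (fun l => (X l).monic)
      (fun l => (X l).degree_pos) (fun l => (X l).ne_zero) (fun l => (X l).unramified) (fun l => (X l).r)
      (fun l => (X l).P) (fun l => (X l).k)
    refine ⟨E, fun c hc q ρ σ γ w hρ => ?_⟩
    obtain ⟨K, hK, n, f, A, Z, W, hD, ρ', hρ', hrep⟩ := hE c hc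
    have hnf : NumberField K := { to_charZero := inferInstance, to_finiteDimensional := hK }
    have hrep' : ∀ i : (Σ l, Fin (σ l) × Fin (X l).r) ⊕ Fin q, ∃ (l : Fin p) (c₀ : ℂ) (cc : Fin (n l) → Fin (n l) → ℂ),
        ∀ z : Fin p → ℂ, (∀ l, ‖z l‖ < min ρ ρ') → periods X c γ w z 0 i = c₀ + ∑ a, ∑ b, cc a b *
          Pool.Agent.Y921.DB.VL (Z l a b) (z l) := by
      rintro (⟨l, s, i⟩ | j)
      · obtain ⟨cc, hcc⟩ := hrep (min ρ ρ') (lt_min hρ hρ') (min_le_right _ _) l (γ l s).x (γ l s).y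
          (Pool.Agent.NH25.CV.Lpp.mono ⟨(γ l s).smooth, (γ l s).continuous, (γ l s).closed_x, (γ l s).closed_y,
            (γ l s).curve, (γ l s).away⟩ (min_le_left _ _)) i
        refine ⟨l, 0, cc, fun z hz => ?_⟩
        rw [zero_add]
        exact hcc (z l) (hz l)
      · refine ⟨⟨0, hp⟩, w j, 0, fun z hz => ?_⟩
        simp [periods]
    choose co c₀ cc hcc using hrep'
    let R : Pool.Agent.NH25.DG.Rep (fun z => periods X c γ w z 0) (min ρ ρ') Z := ⟨co, c₀, cc, fun z hz i => hcc i z hz⟩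
    obtain ⟨r, hr, hrr, ⟨R'⟩⟩ := Pool.Agent.NH25.DL.Rep.toL (lt_min hρ hρ') R hD
    obtain ⟨r', h1, h2, h3⟩ := almost_of (P := periods X c γ w) (P' := fun z _ => periods X c γ w z 0) hr
      (fun l => Pool.Agent.NH25.DL.lfam_of (hD l)) R' (fun z t _ _ => rfl)
    exact ⟨r', h1, h2.trans (hrr.trans (min_le_left _ _)), h3⟩

end Pool.Agent.Results.MP_5591bc_ag.PointsOverResidueField
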